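import Pool.Agent.V7H56.LS.NPc0

/-!
# The group of the permutations whose graph is in `NP`
-/

set_option autoImplicit false

namespace Pool.Agent.V7H56.LS

open Pool.Agent.NPC Pool.Agent.V7H56.PP Pool.Agent.V7H56.RG Equiv

/-- The group of the length-preserving permutations of the set of bit strings whose graphs belong
to `NP`. -/
def NPerm : Subgroup (Perm (List Bool)) where
  carrier := {g | (∀ w, (g w).length = w.length) ∧ InNP (graph g)}
  mul_mem' {a b} ha hb := by
    refine ⟨fun w => ?_, ?_⟩
    · rw [Perm.mul_apply, ha.1, hb.1]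
    · exact inNP_graph ((npf_of_graph ha.1 ha.2).comp (npf_of_graph hb.1 hb.2))
  one_mem' := ⟨fun w => rfl, inNP_graph (NPf.of_poly Poly.id)⟩
  inv_mem' {a} ha := by
    have hL : a ∈ LPerm := ha.1
    exact ⟨LPerm.inv_mem hL, inNP_graph ((npf_of_graph ha.1 ha.2).inv hL)⟩

end Pool.Agent.V7H56.LS
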