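import Pool.Agent.V7H56.LS.DDef
import Pool.Agent.V7H56.LS.NDef

/-!
# The four classes, their groups, and three simple permutations
-/

set_option autoImplicit false

namespace Pool.Agent.V7H56.LS

open Pool.Agent.NPC Pool.Agent.NPC.PIso Pool.Agent.V7H56.PP Pool.Agent.V7H56.RG Equiv
open Pool.Agent.V7H59.CT (InLinSpace)

/-- The four classes: `P`, `NP ∩ coNP`, `DLBA` (deterministic linear space) and `PSPACE`. -/
inductive Cl
  | p
  | npcoNP
  | dlba
  | pspace

/-- The languages of a class. -/
def Cl.lang : Cl → Set (Set (List Bool))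
  | .p => {S | InP S}
  | .npcoNP => {S | InNP S ∧ InNP Sᶜ}
  | .dlba => {S | InLinSpace S}
  | .pspace => {S | InPSPACE S}

/-- The group of a class. -/
def Cl.grp : Cl → Subgroup (Perm (List Bool))
  | .p => PPerm
  | .npcoNP => NPerm
  | .dlba => DPerm
  | .pspace => SPerm

/-- A subgroup contains three simple permutations: the cyclic shift, which moves the first bit to the
end; the permutation which changes the first bit; and the permutation which adds the first bit to
the second bit. -/
def Three (G : Subgroup (Perm (List Bool))) : Prop :=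
  (∃ g ∈ G, g [] = [] ∧ ∀ (a : Bool) (l : List Bool), g (a :: l) = l ++ [a]) ∧
  (∃ g ∈ G, g [] = [] ∧ ∀ (a : Bool) (l : List Bool), g (a :: l) = (!a) :: l) ∧
  (∃ g ∈ G, g [] = [] ∧ (∀ a : Bool, g [a] = [a]) ∧
    ∀ (a b : Bool) (l : List Bool), g (a :: b :: l) = a :: (a ^^ b) :: l)

end Pool.Agent.V7H56.LS
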