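import Pool.Agent.V7H56.LS.NDef

/-!
# The group of the permutations whose graph is in `NP`: first properties
-/

set_option autoImplicit false

namespace Pool.Agent.V7H56.LS

open Pool.Agent.NPC Pool.Agent.NPC.PIso Pool.Agent.V7H56.PP Pool.Agent.V7H56.RG Equiv

theorem NPerm_le : NPerm ≤ LPerm := fun _ h => h.1

theorem mem_NPerm {g : Perm (List Bool)} : g ∈ NPerm ↔ g ∈ LPerm ∧ NPf g ∧ NPf g.symm :=
  ⟨fun h => ⟨h.1, npf_of_graph h.1 h.2, (npf_of_graph h.1 h.2).inv h.1⟩,
    fun h => ⟨h.1, inNP_graph h.2.1⟩⟩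

theorem PPerm_le_NPerm : PPerm ≤ NPerm := fun _ h =>
  ⟨h.1, inNP_graph (NPf.of_poly (mem_PPerm.1 h).2.1)⟩

theorem big_NPerm : Big NPerm := ⟨NPerm_le, fun _ _ h => PPerm_le_NPerm (swap_mem h)⟩

/-- Functions in `NP ∩ coNP` are computable in polynomial space. -/
theorem NPf.toSP {α β : Type} [TEnc α] [TEnc β] {f : α → β} (hf : NPf f) (d : β) : SP f := by
  obtain ⟨V, p, hV, h1, h2⟩ := hf
  let dec : ℕ → T := fun k => prs (k.bits.reverse.tail.reverse)
  have hdec : Poly dec := poly_prs (Poly.reverse (Poly.tail (Poly.reverse (Poly.natBits Poly.id))))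
  have hex : ∀ c : T, ∃ k < 2 ^ (sz c + 1), dec k = c := by
    intro c
    refine ⟨valB (c.enc ++ [true]), ?_, ?_⟩
    · have h3 := valB_lt (c.enc ++ [true])
      rw [List.length_append] at h3
      exact h3
    · have h3 : (valB (c.enc ++ [true])).bits = c.enc ++ [true] := bits_valB_append_true _
      change prs _ = c
      rw [h3]
      simp [prs_enc]
  have hU : UPoly (fun a : α => p.eval (sz a)) :=
    UPoly.eval (n := fun a : α => (bits a).length) (UPoly.length PP.poly_bits) p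
  have hN : Poly (fun a : α => 2 ^ (p.eval (sz a) + 1)) :=
    poly_two_pow (UPoly.add hU (UPoly.const 1))
  have hs : SP (fun a => lst (fun k => (V (a, dec k)).isSome) (2 ^ (p.eval (sz a) + 1))) :=
    SP.lst (p := fun a k => (V (a, dec k)).isSome) (SP.of_poly hN) (SP.of_poly
      (Poly.isSome (hV.comp (Poly.pair (Poly.fst Poly.id) (hdec.comp (Poly.snd Poly.id))))))
  have ho : Poly (fun q : α × ℕ => (V (q.1, dec q.2)).getD d) := by
    refine (Poly.optCases (o := fun q : α × ℕ => V (q.1, dec q.2)) (g := fun _ => d)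
      (h := fun _ b => b) (hV.comp (Poly.pair (Poly.fst Poly.id) (hdec.comp (Poly.snd Poly.id))))
      (NPC.Poly.const d) (Poly.snd Poly.id)).congr fun q => ?_
    cases V (q.1, dec q.2) <;> rfl
  refine (SP.app ho (SP.pair SP.id hs)).congr fun a => ?_
  obtain ⟨c, hc, e⟩ := h2 a
  obtain ⟨k, hk, hk'⟩ := hex c
  have h3 : ∃ k < 2 ^ (p.eval (sz a) + 1), (fun k => (V (a, dec k)).isSome) k = true :=
    ⟨k, hk.trans_le (Nat.pow_le_pow_right (by norm_num) (by omega)), by
      simp only [hk', e, Option.isSome_some]⟩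
  have h4 := (lst_spec h3).2
  obtain ⟨b, hb⟩ := Option.isSome_iff_exists.1 h4
  simp only
  rw [hb, Option.getD_some, h1 _ _ _ hb]

theorem NPerm_le_SPerm : NPerm ≤ SPerm := fun _ h =>
  mem_SPerm.2 ⟨h.1, (npf_of_graph h.1 h.2).toSP []⟩

end Pool.Agent.V7H56.LS
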