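import Pool.Agent.V7H56.LS.Hier
import Pool.Agent.V7H56.LS.NPc

/-!
# Four classes and their groups
-/

set_option autoImplicit false

namespace Pool.Agent.V7H56.LS

open Pool.Agent.NPC Pool.Agent.NPC.PIso Pool.Agent.V7H56.PP Pool.Agent.V7H56.RG Equiv
open Pool.Agent.V7H59.CT (L InLinSpace num num_pos inLinSpace_of_L)

section

open Classical in
/-- The permutation which adds the value of the characteristic function of `S` at the rest of the
string to the first bit. -/
noncomputable def fS (S : Set (List Bool)) : List Bool → List Bool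
  | [] => []
  | a :: l => (a ^^ decide (l ∈ S)) :: l

theorem fS_fS (S : Set (List Bool)) (w : List Bool) : fS S (fS S w) = w := by
  cases w <;> simp [fS]

/-- The permutation. -/
noncomputable def fP (S : Set (List Bool)) : Perm (List Bool) := ⟨fS S, fS S, fS_fS S, fS_fS S⟩

theorem fP_mem (S : Set (List Bool)) : fP S ∈ LPerm := by
  intro w
  change (fS S w).length = _
  cases w <;> simp [fS]

variable {C : ∀ (α β : Type) [TEnc α] [TEnc β], (α → β) → Prop} (hC : FC C)

open Classical in
include hC in
theorem FC.fS {S : Set (List Bool)} : C _ _ (LS.fS S) ↔ C _ _ (fun x => decide (x ∈ S)) := by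
  constructor
  · intro h
    have h1 : C _ _ (fun x : List Bool => LS.fS S (false :: x)) :=
      hC.comp h (hC.of_poly (Poly.cons (NPC.Poly.const false) Poly.id))
    have h2 : Poly (fun w : List Bool => w.getD 0 false) :=
      Poly.getD Poly.id (NPC.Poly.const 0) (NPC.Poly.const false)
    have h3 := hC.comp (hC.of_poly h2) h1
    have e : (fun x : List Bool => (LS.fS S (false :: x)).getD 0 false) =
        fun x => decide (x ∈ S) := by
      funext x
      simp [LS.fS]
    rwa [e] at h3
  · intro h
    have h1 := hC.comp h (hC.of_poly (Poly.tail (Poly.id (α := List Bool))))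
    have h2 := hC.pair (hC.of_poly (Poly.id (α := List Bool))) h1
    have h3 : Poly (fun p : List Bool × Bool => List.casesOn (motive := fun _ => List Bool) p.1 []
        (fun a l => (a ^^ p.2) :: l)) := by
      refine (Poly.listCases (l := fun p : List Bool × Bool => p.1) (g := fun _ => [])
        (h := fun p a l => (a ^^ p.2) :: l) (Poly.fst Poly.id) (NPC.Poly.const _)
        (Poly.cons (Poly.xor (Poly.fst (Poly.snd Poly.id)) (Poly.snd (Poly.fst Poly.id)))
          (Poly.snd (Poly.snd Poly.id)))).congr fun p => ?_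
      cases p.1 <;> rfl
    have h4 := hC.comp (hC.of_poly h3) h2
    have e : (fun w : List Bool => (List.casesOn (motive := fun _ => List Bool) w []
        (fun a l => (a ^^ decide (w.tail ∈ S)) :: l))) = LS.fS S := by
      funext w
      cases w <;> rfl
    rw [← e]
    exact h4

end

open Classical in
theorem inP_iff {S : Set (List Bool)} : InP S ↔ Poly (fun x => decide (x ∈ S)) := by
  constructor
  · rintro ⟨V, hV, h⟩
    refine (Poly.decide_eq (poly_iff.2 hV) (NPC.Poly.const [true])).congr fun x => ?_
    rw [Bool.eq_iff_iff, decide_eq_true_iff, decide_eq_true_iff, h]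
  · intro h
    exact ⟨_, polyTime_of_poly h, fun x => by simp⟩

theorem fP_mem_PPerm {S : Set (List Bool)} : fP S ∈ PPerm ↔ InP S := by
  rw [mem_PPerm, inP_iff, ← FC.fS FC_poly]
  exact ⟨fun h => h.2.1, fun h => ⟨fP_mem S, h, h⟩⟩

theorem fP_mem_SPerm {S : Set (List Bool)} : fP S ∈ SPerm ↔ InPSPACE S := by
  classical
  rw [mem_SPerm']
  have h1 : InPSPACE S ↔ SP (fun x => decide (x ∈ S)) := by
    constructor
    · exact fun h => SP.of_inPSPACE h
    · intro h
      have := h.inPSPACE
      simpa using this
  rw [h1, ← FC.fS FC_sp]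
  exact ⟨fun h => h.2.1, fun h => ⟨fP_mem S, h, h⟩⟩

theorem npf_iff {S : Set (List Bool)} [DecidablePred (· ∈ S)] :
    NPf (fun x => decide (x ∈ S)) ↔ InNP S ∧ InNP Sᶜ := by
  constructor
  · intro h
    refine ⟨InNP.of_NPf h fun x => by simp, ?_⟩
    have h2 : NPf (fun x => !decide (x ∈ S)) :=
      NPf.comp (g := fun b : Bool => !b) (NPf.of_poly (Poly.not Poly.id)) h
    exact InNP.of_NPf h2 fun x => by simp
  · rintro ⟨h1, h2⟩
    have h3 := NPf.of_inNP h1 h2
    obtain ⟨V, p, hV, k1, k2⟩ := h3
    have e : ∀ x, @decide (x ∈ S) (Classical.propDecidable _) = decide (x ∈ S) := by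
      intro x
      by_cases hx : x ∈ S
      · exact (@decide_eq_true _ (Classical.propDecidable _) hx).trans (decide_eq_true hx).symm
      · exact (@decide_eq_false _ (Classical.propDecidable _) hx).trans (decide_eq_false hx).symm
    refine ⟨V, p, hV, fun a c b h => ?_, fun a => ?_⟩
    · exact (k1 a c b h).trans (e a)
    · obtain ⟨c, hc, h⟩ := k2 a
      exact ⟨c, hc, h.trans (congrArg some (e a))⟩

theorem fP_mem_NPerm {S : Set (List Bool)} : fP S ∈ NPerm ↔ InNP S ∧ InNP Sᶜ := by
  classical
  rw [mem_NPerm, ← npf_iff, ← FC.fS FC_np]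
  exact ⟨fun h => h.2.1, fun h => ⟨fP_mem S, h, h⟩⟩

theorem fP_mem_DPerm {S : Set (List Bool)} : fP S ∈ DPerm ↔ InLinSpace S := by
  classical
  rw [mem_DPerm]
  constructor
  · rintro ⟨_, h⟩
    obtain ⟨F, hF, h1⟩ := h.app
    refine inLinSpace_of_L (F := fun e => F (2 * e 0) % 2)
      ((hF ((L.const 2).mul (L.var 0))).mod (L.const 2)) S fun x => ?_
    rw [Function.update_self]
    have h2 : 2 * num x = num (false :: x) := by rw [num_cons]; simp
    rw [h2, h1]
    change _ ↔ num (fS S (false :: x)) % 2 ≠ 0
    rw [fS, num_cons_mod]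
    by_cases hx : x ∈ S <;> simp [hx]
  · intro h
    refine ⟨fP_mem S, ?_⟩
    obtain ⟨F, hF, h1⟩ := L_of_inLinSpace h
    have hFa : L (fun e => F fun _ => e 0 / 2) :=
      L.subst hF (g := fun _ e => e 0 / 2) fun _ => (L.var 0).div (L.const 2)
    refine DLin.of_app (F := fun n => if n ≤ 1 then n else if F (fun _ => n / 2) = 0 then n else
      if n % 2 = 0 then n + 1 else n - 1) (L.ite_le (L.var 0) (L.const 1) (L.var 0)
        (L.ite0 hFa (L.var 0) (L.ite0 ((L.var 0).mod (L.const 2)) (L.var 0).succ
          (L.var 0).pred))) fun w => ?_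
    change _ = num (fS S w)
    cases w with
    | nil => simp [fS, num]
    | cons a l =>
      have hp := num_pos l
      have h3 : ¬ num (a :: l) ≤ 1 := by rw [num_cons]; omega
      rw [if_neg h3, num_cons_mod, num_cons_div, h1 l _ rfl, fS, num_cons, num_cons]
      by_cases hx : l ∈ S
      · cases a <;> simp [hx]
      · cases a <;> simp [hx]

/-! ### Inclusions -/

theorem pspace_of_lin_sub_P (h : ∀ S, InLinSpace S → InP S) (S : Set (List Bool))
    (hS : InPSPACE S) : InP S := by
  obtain ⟨S', q, h1, h2⟩ := exists_pad hS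
  have hpad : Poly (padW q) := by
    unfold padW
    exact Poly.append Poly.id (Poly.cons (NPC.Poly.const true)
      (poly_replicate_false (UPoly.eval (UPoly.length Poly.id) q)))
  have h3 := inP_iff.1 (h S' h1)
  classical
  refine inP_iff.2 ((h3.comp hpad).congr fun x => ?_)
  rw [Bool.eq_iff_iff, decide_eq_true_iff, decide_eq_true_iff, h2]

theorem poly_padW (q : Polynomial ℕ) : Poly (padW q) := by
  unfold padW
  exact Poly.append Poly.id (Poly.cons (NPC.Poly.const true)
    (poly_replicate_false (UPoly.eval (UPoly.length Poly.id) q)))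

theorem pspace_of_lin_sub_NP (h : ∀ S, InLinSpace S → InNP S) (S : Set (List Bool))
    (hS : InPSPACE S) : InNP S := by
  obtain ⟨S', q, h1, h2⟩ := exists_pad hS
  exact InNP.of_reduction (poly_padW q) h2 (h S' h1)

theorem inPSPACE_compl {S : Set (List Bool)} (h : InPSPACE S) : InPSPACE Sᶜ := by
  classical
  have h1 : SP (fun x => !decide (x ∈ S)) :=
    SP.app (h := fun b : Bool => !b) (Poly.not Poly.id) (SP.of_inPSPACE h)
  have := h1.inPSPACE
  have e : {x | (!decide (x ∈ S)) = true} = Sᶜ := by
    ext x; simp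
  rwa [e] at this

theorem inPSPACE_of_inNPcoNP {S : Set (List Bool)} (h : InNP S ∧ InNP Sᶜ) : InPSPACE S := by
  classical
  have h1 := (npf_iff.2 h).toSP false
  have := h1.inPSPACE
  simpa using this

/-! ### The bits of a permutation -/

/-- the language of the bits -/
def bitL (g : List Bool → List Bool) : List Bool → Bool :=
  fun w => (g (unpair w).1).getD (valB (unpair w).2) false

theorem FC.bitL {C : ∀ (α β : Type) [TEnc α] [TEnc β], (α → β) → Prop} (hC : FC C)
    {g : List Bool → List Bool} (hg : C _ _ g) : C _ _ (LS.bitL g) := by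
  have h1 := hC.comp hg (hC.of_poly (Poly.fst poly_unpair))
  have h2 := hC.pair h1 (hC.of_poly (Poly.valBits (Poly.snd poly_unpair)))
  exact hC.comp (g := fun p : List Bool × ℕ => p.1.getD p.2 false)
    (hC.of_poly (Poly.getD (Poly.fst Poly.id) (Poly.snd Poly.id) (NPC.Poly.const false))) h2

theorem poly_of_bitL {g : List Bool → List Bool} (hl : ∀ w, (g w).length = w.length)
    (h : Poly (bitL g)) : Poly g := by
  refine (NPC.Poly.map (F := fun (x : List Bool) (i : ℕ) => bitL g (pairBits x i.bits))
    (UPoly.range (UPoly.length Poly.id)) (h.comp (poly_pairBits (Poly.fst Poly.id)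
      (Poly.natBits (Poly.snd Poly.id))))).congr fun x => ?_
  apply List.ext_getElem
  · simp [hl]
  · intro i h1 h2
    simp only [List.length_map, List.length_range] at h1
    simp only [List.getElem_map, List.getElem_range, bitL, unpair_pairBits, valB_bits]
    rw [List.getD_eq_getElem?_getD, List.getElem?_eq_getElem h2, Option.getD_some]

end Pool.Agent.V7H56.LS
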