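import Pool.Agent.V7H56.LS.Cls

/-!
# Conjugating permutations compute the answers of polynomial-space machines
-/

set_option autoImplicit false

namespace Pool.Agent.V7H56.LS

open Pool.Agent.NPC Pool.Agent.NPC.PIso Pool.Agent.V7H56.PP Pool.Agent.V7H56.RG Equiv

/-- the test, on the list of the six values -/
def tst6 (l : List ℕ) : Bool :=
  (List.range 6).all fun u => decide (P6 false (l.getD (P6 false u) 0) = l.getD u 0)

theorem poly_tst6 : Poly tst6 := by
  have hP0 : Poly (P6 false) := poly_P6.comp (Poly.pair (NPC.Poly.const false) Poly.id)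
  exact Poly.all (p := fun (l : List ℕ) u => decide (P6 false (l.getD (P6 false u) 0) = l.getD u 0))
    (NPC.Poly.const _) (Poly.decide_eq (hP0.comp (Poly.getD (Poly.fst Poly.id)
      (hP0.comp (Poly.snd Poly.id)) (NPC.Poly.const 0)))
      (Poly.getD (Poly.fst Poly.id) (Poly.snd Poly.id) (NPC.Poly.const 0)))

open Classical in
/-- For every language in `PSPACE` there is a polynomial-time permutation such that every
length-preserving permutation which conjugates it to its inverse decides the language. -/
theorem exists_conj_hard {S : Set (List Bool)} (hS : InPSPACE S) : ∃ g ∈ PPerm,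
    ∀ (C : ∀ (α β : Type) [TEnc α] [TEnc β], (α → β) → Prop), FC C → ∀ h ∈ LPerm, C _ _ h →
      h * g * h⁻¹ = g⁻¹ → C _ _ (fun x : List Bool => decide (x ∈ S)) := by
  obtain ⟨D⟩ := exists_rev hS
  refine ⟨(T6 D).perm, (T6 D).perm_mem, fun C hC h hh hCh he => ?_⟩
  have hF : ∀ w, h ((T6 D).F w) = (T6 D).Fi (h w) := by
    intro w
    have e1 : h * (T6 D).perm = (T6 D).perm⁻¹ * h := by
      rw [← he]
      group
    exact congrArg (fun k : Equiv.Perm (List Bool) => k w) e1
  let r : List Bool → ℕ → ℕ := fun x u => (T6 D).rd (h ((T6 D).cod x (0, u, D.v₀ x)))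
  have hr : ∀ x, ∀ u < 6, P6 ((T6 D).ans x (D.v₀ x)) (r x (P6 ((T6 D).ans x (D.v₀ x)) u)) = r x u ∧
      r x u < 6 := fun x u hu => (T6 D).reverse (sep_T6 D) x h h.injective hh hF u hu
  have hCr : ∀ u, C _ _ (fun x : List Bool => r x u) := by
    intro u
    have h1 : Poly (fun x : List Bool => (T6 D).cod x (0, u, D.v₀ x)) :=
      (T6 D).poly_cod Poly.id (Poly.pair (NPC.Poly.const 0) (Poly.pair (NPC.Poly.const u)
        (D.poly_v₀.comp Poly.id)))
    exact hC.comp (hC.of_poly ((T6 D).poly_rd Poly.id)) (hC.comp hCh (hC.of_poly h1))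
  have hCR : ∀ l : List ℕ, C _ _ (fun x : List Bool => l.map (r x)) := by
    intro l
    induction l with
    | nil => exact hC.of_poly (NPC.Poly.const [])
    | cons u l ih =>
      exact hC.comp (g := fun p : ℕ × List ℕ => p.1 :: p.2)
        (hC.of_poly (Poly.cons (Poly.fst Poly.id) (Poly.snd Poly.id))) (hC.pair (hCr u) ih)
  let tst : List Bool → Bool := fun x => tst6 ((List.range 6).map (r x))
  have htst : C _ _ (fun x : List Bool => !(tst x)) :=
    hC.comp (g := fun l : List ℕ => !(tst6 l)) (hC.of_poly (Poly.not poly_tst6)) (hCR _)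
  have hget : ∀ x, ∀ u < 6, ((List.range 6).map (r x)).getD u 0 = r x u := by
    intro x u hu
    rw [List.getD_eq_getElem?_getD, List.getElem?_map, List.getElem?_range hu]
    rfl
  have hP6 : ∀ u < 6, P6 false u < 6 := fun u hu => P6_lt false u hu
  have hspec : ∀ x, (T6 D).ans x (D.v₀ x) = true ↔ x ∈ S := fun x => D.spec x
  have e : (fun x : List Bool => !(tst x)) = fun x => decide (x ∈ S) := by
    funext x
    rw [Bool.eq_iff_iff, decide_eq_true_iff, ← hspec x, Bool.not_eq_true']
    constructor
    · intro hf
      by_contra hcon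
      rw [Bool.not_eq_true] at hcon
      have : tst x = true := by
        refine List.all_eq_true.2 fun u hu => ?_
        have hu' := List.mem_range.1 hu
        have h3 := (hr x u hu').1
        rw [hcon] at h3
        rw [hget x u hu', hget x _ (hP6 u hu')]
        simpa using h3
      rw [this] at hf
      exact absurd hf (by simp)
    · intro ha
      by_contra hcon
      rw [Bool.not_eq_false] at hcon
      have h2 : ∀ u < 6, P6 false (r x (P6 false u)) = r x u := by
        intro u hu
        have := List.all_eq_true.1 hcon u (List.mem_range.2 hu)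
        rw [hget x u hu, hget x _ (hP6 u hu)] at this
        simpa using this
      refine P6_no (r x) (fun u hu => (hr x u hu).2) (fun u hu => ?_) h2
      have := (hr x u hu).1
      rwa [ha] at this
  rw [← e]
  exact htst

end Pool.Agent.V7H56.LS
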