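import Pool.Agent.V7H56.LS.Main

/-!
# A complete language for polynomial space
-/

set_option autoImplicit false

namespace Pool.Agent.V7H56.LS

open Pool.Agent.NPC Pool.Agent.NPC.PIso Pool.Agent.V7H56.PP Pool.Agent.V7H56.RG Equiv
open Pool.Agent.H583R2 (Ent Ins Code UCfg symIx stepI stepU initU runU U stepU_len)
open Pool.Agent.V7H59.CT (InLinSpace num num_pos num_bits num_size)

/-- the computation of a code in bounded space -/
def unp (p : Cu × List Bool × List Bool) : UCfg :=
  (cst p.1.1.1 p.2.2.length)^[2 ^ (p.2.2.length + 1)] (init' p.1 p.2.1)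

theorem sz_unp {r : Polynomial ℕ}
    (hr : ∀ p : Cu × List Bool × List Bool, sz (init' p.1 p.2.1) ≤ r.eval (sz p))
    (p : Cu × List Bool × List Bool) (i : ℕ) :
    sz ((cst p.1.1.1 p.2.2.length)^[i] (init' p.1 p.2.1)) ≤ (r + Polynomial.X).eval (sz p) := by
  refine (sz_cst _ _ _ i).trans ?_
  rw [Polynomial.eval_add, Polynomial.eval_X]
  refine Nat.add_le_add (hr p) ?_
  have h1 := length_lt_sz p.2.2
  have h2 : sz p.2.2 ≤ sz p := by
    obtain ⟨a, b, c⟩ := p
    have e1 : sz (a, b, c) = sz a + sz (b, c) + 1 := sz_pair _ _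
    have e2 : sz (b, c) = sz b + sz c + 1 := sz_pair _ _
    rw [e1, e2]
    change sz c ≤ _
    omega
  omega

theorem poly_unp_step :
    Poly (fun q : (Cu × List Bool × List Bool) × UCfg => cst q.1.1.1.1 q.1.2.2.length q.2) := by
  have hk : UPoly (fun p : Cu × List Bool × List Bool => p.2.2.length) :=
    UPoly.length (Poly.snd (Poly.snd Poly.id))
  have h1 : Poly (fun q : (Cu × List Bool × List Bool) × UCfg => stepU q.1.1.1.1 q.2) :=
    poly_stepU (Poly.fst (Poly.fst (Poly.fst (Poly.fst Poly.id)))) (Poly.snd Poly.id)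
  have h2 : Poly (fun c : UCfg => sz c) := UPoly.toPoly (UPoly.length PP.poly_bits)
  exact Poly.cond (Poly.decide_le (h2.comp h1) (hk.toPoly.comp (Poly.fst Poly.id))) h1
    (Poly.snd Poly.id)

theorem poly_unp_arg : Poly (fun p : Cu × List Bool × List Bool => (p.1, p.2.1)) :=
  Poly.pair (Poly.fst Poly.id) (Poly.fst (Poly.snd Poly.id))

theorem poly_unp_init : Poly (fun p : Cu × List Bool × List Bool => init' p.1 p.2.1) :=
  NPC.Poly.comp (g := fun p : Cu × List Bool => init' p.1 p.2)
    (f := fun p : Cu × List Bool × List Bool => (p.1, p.2.1)) poly_init' poly_unp_arg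

theorem sp_unp : SP unp := by
  have hk : UPoly (fun p : Cu × List Bool × List Bool => p.2.2.length) :=
    UPoly.length (Poly.snd (Poly.snd Poly.id))
  obtain ⟨r, hr⟩ := poly_unp_init.sz_le
  have hn : SP (fun p : Cu × List Bool × List Bool => 2 ^ (p.2.2.length + 1)) :=
    SP.of_poly (poly_two_pow (UPoly.add hk (UPoly.const 1)))
  have hs : SP (fun p : Cu × List Bool × List Bool => init' p.1 p.2.1) :=
    SP.of_poly poly_unp_init
  have hG : SP (fun q : (Cu × List Bool × List Bool) × UCfg =>
    cst q.1.1.1.1 q.1.2.2.length q.2) := SP.of_poly poly_unp_step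
  exact SP.iter (G := fun (p : Cu × List Bool × List Bool) c => cst p.1.1.1 p.2.2.length c)
    hn hs hG (r + Polynomial.X) fun p i _ => sz_unp hr p i

/-- the complete problem -/
def cmpl (w : List Bool) : Bool :=
  decide (outU (cdw w).1 (unp (cdw w, unpair (unpair w).2)) = [true])

theorem sp_cmpl : SP cmpl := by
  have h1 : SP (fun w : List Bool => unp (cdw w, unpair (unpair w).2)) :=
    sp_unp.comp (SP.of_poly (Poly.pair poly_cdw (poly_unpair.comp (Poly.snd poly_unpair))))
  have h0 : SP (fun w : List Bool => (cdw w).1) := SP.of_poly (Poly.fst poly_cdw)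
  have h3 : Poly (fun p : Code × UCfg => decide (outU p.1 p.2 = [true])) :=
    Poly.decide_eq poly_outU (NPC.Poly.const [true])
  have h4 : SP (fun w : List Bool =>
      decide (outU (cdw w).1 (unp (cdw w, unpair (unpair w).2)) = [true])) :=
    SP.app (h := fun p : Code × UCfg => decide (outU p.1 p.2 = [true]))
      (f := fun w : List Bool => ((cdw w).1, unp (cdw w, unpair (unpair w).2))) h3
      (SP.pair h0 h1)
  exact h4

/-- The complete language. -/
def cmplL : Set (List Bool) := {w | cmpl w = true}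

theorem inPSPACE_cmplL : InPSPACE cmplL := sp_cmpl.inPSPACE

/-- Every language in polynomial space is reduced to it. -/
theorem cmpl_hard {S : Set (List Bool)} (hS : InPSPACE S) :
    ∃ f : List Bool → List Bool, Poly f ∧ ∀ x, x ∈ S ↔ f x ∈ cmplL := by
  obtain ⟨tm, ein, eout, p, hp⟩ := hS
  obtain ⟨cd, D, hcd⟩ := exists_code ein eout
  obtain ⟨b, hb, hI⟩ := exists_smI cd.1 (cd.2.2.2.2.1.1 + cd.2.2.2.2.1.2 + cd.2.1 + 2)
  set u : List Bool := List.replicate cd.2.2.1 true with hu
  set c0 : List Bool := bits ((cd, u) : Cu) with hc0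
  -- the space
  let q : Polynomial ℕ := Polynomial.C cd.2.2.1 * ((p + Polynomial.C D) *
    Polynomial.C (2 * sz b + 1) + 2) + Polynomial.C (2 * sz b + 2)
  have hq : ∀ n, q.eval n = cd.2.2.1 * ((p.eval n + D) * (2 * sz b + 1) + 2) + 2 * sz b + 2 := by
    intro n
    simp only [q, Polynomial.eval_add, Polynomial.eval_mul, Polynomial.eval_C,
      Polynomial.eval_ofNat]
    ring
  refine ⟨fun x => pairBits c0 (pairBits x (List.replicate (q.eval x.length) false)), ?_,
    fun x => ?_⟩
  · exact poly_pairBits (NPC.Poly.const _) (poly_pairBits Poly.id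
      (poly_replicate_false (UPoly.eval (UPoly.length Poly.id) q)))
  · obtain ⟨⟨n, y, hy, hn⟩, hsp⟩ := hp x
    obtain ⟨⟨m, hm1, hm2⟩, hU⟩ := hcd x (p.eval x.length) n y hn hsp
    have hgood := run_good hI hb x
    set B := q.eval x.length with hB
    have hsz : ∀ i ≤ m, sz (runU cd x i) ≤ B := by
      intro i hi
      have h1 := sz_cfg_le (hgood i).1 (hgood i).2 (hm2 i hi)
      rw [hB, hq]
      exact h1
    have hinit : init' (cd, u) x = runU cd x 0 := by
      change (cd.2.1, _) = (cd.2.1, _)
      congr 2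
      · rw [hu]; simp
      · refine List.map_congr_left fun a _ => ?_
        cases a <;> rfl
    have hit : ∀ i ≤ m, (cst cd.1 B)^[i] (init' (cd, u) x) = runU cd x i := by
      intro i
      induction i with
      | zero => intro _; exact hinit
      | succ i ih =>
        intro hi
        have e : runU cd x (i + 1) = stepU cd.1 (runU cd x i) :=
          Function.iterate_succ_apply' _ _ _
        rw [Function.iterate_succ_apply', ih (by omega)]
        unfold cst
        rw [← e, decide_eq_true (hsz (i + 1) hi), cond_true]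
    have hfixc : stepU cd.1 (runU cd x m) = runU cd x m := by
      unfold stepU
      rw [List.getElem?_eq_none hm1]
    have hfix : cst cd.1 B (runU cd x m) = runU cd x m := by
      unfold cst
      rw [hfixc]
      cases decide (sz (runU cd x m) ≤ B) <;> rfl
    have huni : unp ((cd, u), x, List.replicate B false) = runU cd x m := by
      unfold unp
      simp only [List.length_replicate]
      rw [← hit m le_rfl]
      refine iterate_bound_gen (fun c : UCfg => num (bits c))
        (fun _ _ h => bits_injective (num_injective h)) (fun i hi => ?_) ?_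
      · rw [hit i hi]
        refine (num_lt _).trans_le (Nat.pow_le_pow_right (by norm_num) ?_)
        have h5 : sz (runU cd x i) ≤ B := hsz i hi
        rw [bits_length]
        change sz (runU cd x i) + 1 ≤ B + 1
        omega
      · rw [hit m le_rfl, hfix]
    have hUm := hU m hm1
    unfold U at hUm
    rw [if_neg (by simpa using hm1)] at hUm
    have hout : outU cd (runU cd x m) = [y] := Option.some.inj hUm
    have hcdw : cdw (pairBits c0 (pairBits x (List.replicate B false))) = (cd, u) := by
      unfold cdw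
      rw [unpair_pairBits, hc0]
      simp only [unbits_bits, Option.getD_some]
    have hd : cmpl (pairBits c0 (pairBits x (List.replicate B false))) = decide ([y] = [true]) := by
      unfold cmpl
      rw [hcdw, unpair_pairBits]
      simp only
      rw [unpair_pairBits, huni, hout]
    rw [← hy, cmplL, Set.mem_ofPred_eq, hd]
    cases y <;> simp

/-- A single permutation whose conjugacy class decides the questions. -/
theorem exists_single : ∃ g ∈ PPerm,
    ((∀ S, InLinSpace S → InP S) ↔ ∃ h ∈ PPerm, h * g * h⁻¹ = g⁻¹) ∧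
    ((∀ S, InLinSpace S → InNP S) ↔ ∃ h ∈ NPerm, h * g * h⁻¹ = g⁻¹) := by
  classical
  obtain ⟨g, hg, h1⟩ := exists_conj_hard inPSPACE_cmplL
  refine ⟨g, hg, ⟨fun h => ?_, fun h S hS => ?_⟩, ⟨fun h => ?_, fun h S hS => ?_⟩⟩
  · rw [← SPerm_eq (pspace_of_lin_sub_P h)]
    exact SPerm_ambivalent (PPerm_le_SPerm hg)
  · obtain ⟨k, hk, e⟩ := h
    have hk' := mem_PPerm.1 hk
    have h2 := h1 _ FC_poly k hk'.1 hk'.2.1 e
    obtain ⟨f, hf, h3⟩ := cmpl_hard (inPSPACE_of_inLinSpace hS)
    refine inP_iff.2 ((h2.comp hf).congr fun x => ?_)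
    rw [Bool.eq_iff_iff, decide_eq_true_iff, decide_eq_true_iff, h3]
  · obtain ⟨k, hk, e⟩ := SPerm_ambivalent (PPerm_le_SPerm hg)
    exact ⟨k, ⟨hk.1, pspace_of_lin_sub_NP h _ hk.2⟩, e⟩
  · obtain ⟨k, hk, e⟩ := h
    have hk' := mem_NPerm.1 hk
    have h2 := npf_iff.1 (h1 _ FC_np k hk'.1 hk'.2.1 e)
    obtain ⟨f, hf, h3⟩ := cmpl_hard (inPSPACE_of_inLinSpace hS)
    exact InNP.of_reduction hf h3 h2.1

end Pool.Agent.V7H56.LS
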