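import Pool.Agent.V7H56.LS.Group0

/-!
# The group of the permutations computable in linear space
-/

set_option autoImplicit false

namespace Pool.Agent.V7H56.LS

open Pool.Agent.V7H56.PP Pool.Agent.V7H56.RG Equiv
open Pool.Agent.V7H59.CT (InLinSpace)

/-- The group of the length-preserving permutations of the set of bit strings whose graphs belong
to the class of linear space. -/
def DPerm : Subgroup (Perm (List Bool)) where
  carrier := {g | (∀ w, (g w).length = w.length) ∧ InLinSpace (graph g)}
  mul_mem' {a b} ha hb := by
    refine ⟨fun w => ?_, ?_⟩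
    · rw [Perm.mul_apply, ha.1, hb.1]
    · exact inLinSpace_graph ((dlin_of_graph ha.1 ha.2).comp (dlin_of_graph hb.1 hb.2))
  one_mem' := ⟨fun w => rfl, inLinSpace_graph DLin.id⟩
  inv_mem' {a} ha := by
    have hL : a ∈ LPerm := ha.1
    exact ⟨LPerm.inv_mem hL, inLinSpace_graph ((dlin_of_graph ha.1 ha.2).inv hL)⟩

end Pool.Agent.V7H56.LS
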