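import Pool.Agent.V7H56.LS.Group

/-!
# The group of polynomial-space permutations embeds in the group of linear-space permutations
-/

set_option autoImplicit false

namespace Pool.Agent.V7H56.LS

open Pool.Agent.NPC Pool.Agent.NPC.PIso Pool.Agent.V7H56.PP Pool.Agent.V7H56.RG Equiv
open Pool.Agent.V7H59.CT (L InLinSpace num num_pos num_size sz_eq powT powT_eq lfind lfind_eq)

/-- Functions which are computable in linear space for long inputs. -/
theorem DLin.of_large {g : List Bool → List Bool} {F : ℕ → ℕ} (hF : L (fun e => F (e 0))) (n₀ : ℕ)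
    (h : ∀ x : List Bool, n₀ ≤ x.length → F (num x) = num (g x)) : DLin g := by
  classical
  let T : ℕ → ℕ := fun X => if hX : ∃ x, num x = X then num (g hX.choose) else 0
  have hT : ∀ x, T (num x) = num (g x) := by
    intro x
    have hX : ∃ y, num y = num x := ⟨x, rfl⟩
    simp only [T, dif_pos hX]
    rw [num_injective hX.choose_spec]
  have h1 : L (fun e => ((List.range (2 ^ n₀)).map T).getD (e 0) 0) :=
    L_getD ((List.range (2 ^ n₀)).map T) (A := fun e => e 0) (f := fun a _ => a) 0 (L.var 0)
      fun a => L.const a
  refine DLin.of_app (F := fun n => if n < 2 ^ n₀ then ((List.range (2 ^ n₀)).map T).getD n 0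
    else F n) (L.ite_lt (L.var 0) (L.const _) h1 hF) fun x => ?_
  by_cases hx : num x < 2 ^ n₀
  · rw [if_pos hx, List.getD_eq_getElem?_getD, List.getElem?_map, List.getElem?_range hx]
    exact hT x
  · rw [if_neg hx]
    refine h x ?_
    by_contra hcon
    exact hx ((num_lt x).trans_le (Nat.pow_le_pow_right (by norm_num) (by omega)))

theorem num_take (x : List Bool) : ∀ k ≤ x.length,
    num (x.take k) = num x % 2 ^ k + 2 ^ k ∧ num (x.drop k) = num x / 2 ^ k := by
  induction x with
  | nil =>
    intro k hk
    obtain rfl : k = 0 := by simpa using hk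
    simp [num, Nat.mod_one]
  | cons a l ih =>
    intro k hk
    cases k with
    | zero => simp [num, Nat.mod_one]
    | succ k =>
      obtain ⟨h1, h2⟩ := ih k (by simpa using hk)
      rw [List.take_succ_cons, List.drop_succ_cons, num_cons, h1, h2]
      have e1 : num (a :: l) / 2 ^ (k + 1) = num l / 2 ^ k := by
        rw [pow_succ', ← Nat.div_div_eq_div_mul, num_cons_div]
      have e2 : num (a :: l) % 2 ^ (k + 1) = a.toNat + 2 * (num l % 2 ^ k) := by
        rw [pow_succ', Nat.mod_mul, num_cons_mod, num_cons_div]
      rw [e1, e2]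
      refine ⟨?_, rfl⟩
      rw [pow_succ]
      ring

theorem num_app_eq (x y : List Bool) :
    num (x ++ y) = num x + 2 ^ x.length * num y - 2 ^ x.length := by
  have := num_append x y
  omega

theorem dlin_emb {g : Perm (List Bool)} (hg : g ∈ SPerm) : DLin (emb g) := by
  classical
  have hl : ∀ w, (g w).length = w.length := hg.1
  obtain ⟨tm, ein, eout, p, hp⟩ := hg.2
  obtain ⟨cd, D, hcd⟩ := exists_code ein eout
  obtain ⟨F, hF, h1⟩ := exists_L cd D
  -- the space on pairs of strings of length `k`
  let s : Polynomial ℕ := p.comp (3 * Polynomial.X + 1) + (3 * Polynomial.X + 1)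
  have hs : ∀ k, s.eval k = p.eval (3 * k + 1) + (3 * k + 1) := by
    intro k
    simp [s, Polynomial.eval_comp]
  obtain ⟨k₀, hk₀⟩ := ev_le (2 * s + 6)
  -- the value of the function, given a bound
  let G : ℕ → ℕ → ℕ := fun U W =>
    lfind (fun k => F fun i => if i = 0 then pn U (k + 1) else W) (2 * U) + 1
  have hG : ∀ {A B : (ℕ → ℕ) → ℕ}, L A → L B → L (fun e => G (A e) (B e)) := by
    intro A B hA hB
    refine L.succ (L.find (P := fun e k => F fun i => if i = 0 then pn (A e) (k + 1) else B e)
      ((L.const 2).mul hA) ?_)
    refine L.subst hF (g := fun i z => if i = 0 then pn (A fun j => z (j + 1)) (z 0 + 1) else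
      B fun j => z (j + 1)) fun i => ?_
    by_cases hi : i = 0
    · simp only [hi, if_true]
      exact L_pn hA.tl (L.var 0).succ
    · simp only [hi, if_false]
      exact hB.tl
  have hGv : ∀ (u : List Bool) (W : ℕ), 2 ^ (s.eval u.length) ≤ W → G (num u) W = num (g u) := by
    intro u W hW
    have hF1 : ∀ y : List Bool, y.length ≤ u.length →
        F (fun i => if i = 0 then pn (num u) (num y) else W) = if y = g u then 1 else 0 := by
      intro y hy
      have hlen : (pairBits u y).length ≤ 3 * u.length + 1 := by
        rw [length_pairBits]; omega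
      have hlen' := eval_mono p hlen
      obtain ⟨⟨n, b, hb, hn⟩, hsp⟩ := hp (pairBits u y)
      obtain ⟨h5, h6⟩ := hcd (pairBits u y) (s.eval u.length) n b hn fun i c hc k =>
        (hsp i c hc k).trans (by rw [hs]; omega)
      have h7 := h1 (pairBits u y) (s.eval u.length) W b
        (fun i => if i = 0 then pn (num u) (num y) else W)
        (by rw [hs]; omega) hW (by simp only [if_true, pn_num]) (by simp) h5 h6
      rw [h7]
      by_cases hyg : y = g u
      · have : b = true := hb.2 ⟨u, by rw [hyg]⟩
        rw [if_pos hyg, this]; rfl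
      · have : b = false := by
          rcases Bool.eq_false_or_eq_true b with hbt | hbf
          · exfalso
            obtain ⟨x', hx'⟩ := hb.1 hbt
            obtain ⟨rfl, h8⟩ := pairBits_inj hx'
            exact hyg h8
          · exact hbf
        rw [if_neg hyg, this]; rfl
    have hpos := num_pos (g u)
    have hlt := num_lt_two_mul (hl u)
    have h2 : lfind (fun k => F fun i => if i = 0 then pn (num u) (k + 1) else W) (2 * num u) =
        num (g u) - 1 := by
      refine lfind_eq (by omega) ?_ fun i hi => ?_
      · simp only [Nat.sub_add_cancel hpos]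
        rw [hF1 (g u) (hl u).le, if_pos rfl]
        exact one_ne_zero
      · obtain ⟨y, hy⟩ := exists_num_eq (Nat.succ_pos i)
        rw [← Nat.succ_eq_add_one, ← hy, hF1 y, if_neg]
        · rintro rfl
          omega
        · by_contra hcon
          have := num_lt_of_length_lt (x := g u) (y := y) (by rw [hl]; omega)
          omega
    simp only [G, h2]
    omega
  -- the function
  let K : ℕ → ℕ := fun X => V7H59.CT.sz (V7H59.CT.sz (V7H59.CT.sz X - 1))
  let Q : ℕ → ℕ := fun X => powT 2 (K X) X
  have hK : L (fun e => K (e 0)) := L.sz (L.sz ((L.sz (L.var 0)).sub (L.const 1)))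
  have hQ : L (fun e => Q (e 0)) := L.powT (L.const 2) hK (L.var 0)
  refine DLin.of_large (F := fun X => G (X % Q X + Q X) X + Q X * (X / Q X) - Q X) ?_
    (2 ^ 2 ^ (k₀ + 1)) fun x hx => ?_
  · exact ((hG (((L.var 0).mod hQ).add hQ) (L.var 0)).add (hQ.mul ((L.var 0).div hQ))).sub hQ
  · have hk : K (num x) = kap x.length := by
      simp only [K, sz_eq, num_size, Nat.add_sub_cancel]
      rfl
    have hle := kap_le x.length
    have hq : Q (num x) = 2 ^ kap x.length := by
      simp only [Q, hk]
      exact powT_eq ((Nat.pow_le_pow_right (by norm_num) hle).trans (two_pow_le_num x))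
    obtain ⟨e1, e2⟩ := num_take x (kap x.length) hle
    have h5 : k₀ + 1 ≤ kap x.length := by
      by_contra hcon
      have := kap_lt (not_le.1 hcon)
      omega
    have h6 := hk₀ (kap x.length) (by omega)
    simp only [Polynomial.eval_add, Polynomial.eval_mul, Polynomial.eval_ofNat] at h6
    have hlen : (x.take (kap x.length)).length = kap x.length := by
      rw [List.length_take]; omega
    have h9 : 2 ^ s.eval (kap x.length) ≤ x.length := by
      refine le_of_kap ?_ (by omega)
      obtain ⟨j, hj⟩ : ∃ j, kap x.length = j + 1 := ⟨kap x.length - 1, by omega⟩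
      rw [hj] at h6 ⊢
      rw [pow_succ] at h6
      simp only [Nat.add_sub_cancel]
      omega
    have h10 : 2 ^ s.eval (x.take (kap x.length)).length ≤ num x := by
      rw [hlen]
      refine h9.trans (le_trans ?_ (two_pow_le_num x))
      exact Nat.lt_two_pow_self.le
    change G (num x % Q (num x) + Q (num x)) (num x) + Q (num x) * (num x / Q (num x)) -
      Q (num x) = num (g (x.take (kap x.length)) ++ x.drop (kap x.length))
    rw [hq, ← e1, ← e2, hGv _ _ h10, num_app_eq, hl, hlen]

/-- The embedding. -/
def embD : SPerm →* DPerm where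
  toFun g := ⟨(embHom g : Perm (List Bool)), mem_DPerm.2 ⟨PPerm_le (embHom g).2, dlin_emb g.2⟩⟩
  map_one' := by
    apply Subtype.ext
    change ((embHom 1 : PPerm) : Perm (List Bool)) = 1
    rw [map_one]; rfl
  map_mul' a b := by
    apply Subtype.ext
    change ((embHom (a * b) : PPerm) : Perm (List Bool)) = _
    rw [map_mul]; rfl

theorem embD_injective : Function.Injective embD := by
  intro a b h
  apply embHom_injective
  apply Subtype.ext
  exact congrArg (fun t : DPerm => (t : Perm (List Bool))) h

end Pool.Agent.V7H56.LS
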