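import Pool.Agent.V7H56.LS.DDef

/-!
# The group of the permutations computable in linear space: first properties
-/

set_option autoImplicit false

namespace Pool.Agent.V7H56.LS

open Pool.Agent.NPC Pool.Agent.NPC.PIso Pool.Agent.V7H56.PP Pool.Agent.V7H56.RG Equiv Finset
open Pool.Agent.V7H59.CT (L InLinSpace num num_pos num_bits num_size exists_num dgt dgt_eq powT
  powT_eq lfind lfind_eq lfind_le lfind_spec inLinSpace_of_L sz_eq)
open Function (update)

theorem mem_DPerm {g : Perm (List Bool)} : g ∈ DPerm ↔ g ∈ LPerm ∧ DLin g :=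
  ⟨fun h => ⟨h.1, dlin_of_graph h.1 h.2⟩, fun h => ⟨h.1, inLinSpace_graph h.2⟩⟩

theorem DPerm_le : DPerm ≤ LPerm := fun _ h => h.1

theorem inPSPACE_of_inLinSpace {S : Set (List Bool)} (h : InLinSpace S) :
    InPSPACE S := by
  obtain ⟨f, M, C, h1, h2⟩ := h
  refine ⟨M.tm, M.inputAlphabet, M.outputAlphabet, Polynomial.C C * (Polynomial.X + 1),
    fun x => ⟨?_, fun i c hc k => ?_⟩⟩
  · obtain ⟨n, hn⟩ := M.outputsFun x
    exact ⟨n, f x, (h1 x).symm, hn⟩
  · have h3 := length_le_of_space (h2 x c (reaches_of_iter i _ c hc)) k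
    simpa using h3

theorem DPerm_le_SPerm : DPerm ≤ SPerm := fun _ h => ⟨h.1, inPSPACE_of_inLinSpace h.2⟩

/-! ### Some permutations -/

theorem big_DPerm : Big DPerm := by
  refine ⟨DPerm_le, fun x y h => mem_DPerm.2 ⟨PPerm_le (swap_mem h), ?_⟩⟩
  refine DLin.of_app (F := fun n => if n = num x then num y else if n = num y then num x else n)
    (L.ite_eq (L.var 0) (L.const _) (L.const _) (L.ite_eq (L.var 0) (L.const _) (L.const _)
      (L.var 0))) fun w => ?_
  rw [swap_apply_def]
  by_cases hx : w = x
  · simp [hx]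
  · by_cases hy : w = y
    · rw [if_neg (fun e => hx (num_injective e)), if_pos (by rw [hy]), if_neg hx, if_pos hy]
    · rw [if_neg (fun e => hx (num_injective e)), if_neg (fun e => hy (num_injective e)),
        if_neg hx, if_neg hy]

theorem num_cons_div (a : Bool) (l : List Bool) : num (a :: l) / 2 = num l := by
  rw [num_cons]; cases a <;> simp; omega

theorem num_cons_mod (a : Bool) (l : List Bool) : num (a :: l) % 2 = a.toNat := by
  rw [num_cons]; cases a <;> simp

theorem rotP_mem_DPerm : rotP ∈ DPerm := by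
  refine mem_DPerm.2 ⟨rot_len, ?_⟩
  refine DLin.of_app (F := fun n => if n ≤ 1 then n else
    n / 2 + powT 2 (V7H59.CT.sz n - 2) n * (n % 2 + 1))
    (L.ite_le (L.var 0) (L.const 1) (L.var 0) (((L.var 0).div (L.const 2)).add
      ((L.powT (L.const 2) ((L.var 0).sz.sub (L.const 2)) (L.var 0)).mul
        ((L.var 0).mod (L.const 2)).succ))) fun w => ?_
  cases w with
  | nil => simp [rotP, rot, num]
  | cons a l =>
    have hp := num_pos l
    have h1 : ¬ num (a :: l) ≤ 1 := by rw [num_cons]; omega
    have h2 : powT 2 (V7H59.CT.sz (num (a :: l)) - 2) (num (a :: l)) = 2 ^ l.length := by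
      rw [sz_eq, num_size, List.length_cons, Nat.add_sub_add_right]
      refine powT_eq ?_
      have h3 := two_pow_le_num l
      rw [num_cons]
      simp only [Nat.add_sub_cancel]
      omega
    rw [if_neg h1, num_cons_div, num_cons_mod, h2]
    have h3 := num_append l [a]
    have h4 : num [a] = a.toNat + 2 := by rw [num_cons, num]; omega
    rw [h4] at h3
    change _ = num (l ++ [a])
    nlinarith

theorem flpP_mem_DPerm : flpP ∈ DPerm := by
  refine mem_DPerm.2 ⟨flp_len, ?_⟩
  refine DLin.of_app (F := fun n => if n ≤ 1 then n else if n % 2 = 0 then n + 1 else n - 1)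
    (L.ite_le (L.var 0) (L.const 1) (L.var 0) (L.ite0 ((L.var 0).mod (L.const 2)) (L.var 0).succ
      (L.var 0).pred)) fun w => ?_
  cases w with
  | nil => simp [flpP, flp, num]
  | cons a l =>
    have hp := num_pos l
    have h1 : ¬ num (a :: l) ≤ 1 := by rw [num_cons]; omega
    rw [if_neg h1, num_cons_mod]
    change _ = num ((!a) :: l)
    rw [num_cons, num_cons]
    cases a <;> simp

theorem cnotP_mem_DPerm : cnotP ∈ DPerm := by
  refine mem_DPerm.2 ⟨cnot_len, ?_⟩
  refine DLin.of_app (F := fun n => if n ≤ 3 then n else if n % 2 = 0 then n else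
    if n / 2 % 2 = 0 then n + 2 else n - 2)
    (L.ite_le (L.var 0) (L.const 3) (L.var 0) (L.ite0 ((L.var 0).mod (L.const 2)) (L.var 0)
      (L.ite0 (((L.var 0).div (L.const 2)).mod (L.const 2)) ((L.var 0).add (L.const 2))
        ((L.var 0).sub (L.const 2))))) fun w => ?_
  match w with
  | [] => simp [cnotP, cnot, num]
  | [a] => cases a <;> simp [cnotP, cnot, num, Nat.bit_val]
  | a :: b :: l =>
    have hp := num_pos l
    have h1 : ¬ num (a :: b :: l) ≤ 3 := by rw [num_cons, num_cons]; omega
    rw [if_neg h1, num_cons_mod, num_cons_div, num_cons_mod]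
    change _ = num (a :: (a ^^ b) :: l)
    rw [num_cons, num_cons, num_cons, num_cons]
    cases a <;> cases b <;> simp <;> omega

end Pool.Agent.V7H56.LS
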