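import Pool.Agent.V7H56.LS.Sim
import Pool.Agent.V7H59.CT.Inp
import Pool.Agent.V7H56.RG.Main

/-!
# Functions computable in linear space
-/

set_option autoImplicit false

namespace Pool.Agent.V7H56.LS

open Pool.Agent.NPC Pool.Agent.NPC.PIso Pool.Agent.V7H56.PP Pool.Agent.V7H56.RG Equiv Finset
open Pool.Agent.V7H59.CT (L InLinSpace num num_pos num_bits num_size exists_num dgt dgt_eq powT
  powT_eq lfind lfind_eq lfind_le lfind_spec inLinSpace_of_L sz_eq)
open Function (update)

/-! ### Numbers of strings -/

theorem num_injective : Function.Injective num := by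
  intro x y h
  have h1 := num_bits x
  rw [h, num_bits] at h1
  exact (List.append_left_injective [true] h1).symm

theorem two_pow_le_num (x : List Bool) : 2 ^ x.length ≤ num x :=
  Nat.lt_size.1 (by rw [num_size]; omega)

theorem num_lt (x : List Bool) : num x < 2 ^ (x.length + 1) := by
  have := Nat.lt_size_self (num x)
  rwa [num_size] at this

theorem exists_num_eq {n : ℕ} (h : 0 < n) : ∃ x, num x = n := by
  have h1 : 0 < n.size := Nat.size_pos.2 h
  have h2 : 2 ^ (n.size - 1) ≤ n := Nat.lt_size.1 (by omega)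
  have h3 : n < 2 ^ n.size := Nat.lt_size_self n
  have h4 : 2 ^ n.size = 2 ^ (n.size - 1) + 2 ^ (n.size - 1) := by
    rw [← two_mul, ← pow_succ']; congr 1; omega
  obtain ⟨x, _, hx⟩ := exists_num (n.size - 1) (n - 2 ^ (n.size - 1)) (by omega)
  exact ⟨x, by rw [hx]; omega⟩

theorem num_lt_of_length_lt {x y : List Bool} (h : x.length < y.length) : num x < num y :=
  (num_lt x).trans_le ((Nat.pow_le_pow_right (by norm_num) h).trans (two_pow_le_num y))

theorem num_lt_two_mul {x y : List Bool} (h : x.length = y.length) : num x < 2 * num y := by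
  have h1 := num_lt x
  have h2 := two_pow_le_num y
  rw [h, pow_succ] at h1
  omega

theorem num_cons (a : Bool) (l : List Bool) : num (a :: l) = 2 * num l + a.toNat := by
  rw [num, Nat.bit_val]

/-- The number of a pair. -/
def pn (X Y : ℕ) : ℕ :=
  ∑ i ∈ range (V7H59.CT.sz X - 1), (1 + 2 * dgt 2 X i) * powT 4 i (X * X) +
    2 * powT 4 (V7H59.CT.sz X - 1) (X * X) * Y

theorem pn_num (x y : List Bool) : pn (num x) (num y) = num (pairBits x y) := by
  have key : ∀ x : List Bool, ∑ i ∈ range x.length, (1 + 2 * dgt 2 (num x) i) * 4 ^ i +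
      2 * 4 ^ x.length * num y = num (pairBits x y) := by
    intro x
    induction x with
    | nil =>
      have e : pairBits [] y = false :: y := rfl
      rw [e, num_cons]
      simp
    | cons a x ih =>
      have e : pairBits (a :: x) y = true :: a :: pairBits x y := rfl
      rw [e, num_cons true, num_cons a (pairBits x y), ← ih, List.length_cons, sum_range_succ',
        num_dgt_zero]
      have e2 : ∑ i ∈ range x.length, (1 + 2 * dgt 2 (num (a :: x)) (i + 1)) * 4 ^ (i + 1) =
          4 * ∑ i ∈ range x.length, (1 + 2 * dgt 2 (num x) i) * 4 ^ i := by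
        rw [mul_sum]
        refine sum_congr rfl fun i _ => ?_
        rw [num_dgt_succ, pow_succ]
        ring
      rw [e2, pow_succ]
      simp only [pow_zero, Bool.toNat_true]
      ring
  have h4 : ∀ i ≤ x.length, powT 4 i (num x * num x) = 4 ^ i := by
    intro i hi
    refine powT_eq ?_
    have h1 := (Nat.pow_le_pow_right (n := 2) (by norm_num) hi).trans (two_pow_le_num x)
    calc 4 ^ i = 2 ^ i * 2 ^ i := by rw [← mul_pow]; norm_num
      _ ≤ _ := Nat.mul_le_mul h1 h1
  unfold pn
  rw [sz_eq, num_size, Nat.add_sub_cancel, ← key x, h4 _ le_rfl]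
  congr 1
  exact sum_congr rfl fun i hi => by rw [h4 i (mem_range.1 hi).le]

theorem L_pn {X Y : (ℕ → ℕ) → ℕ} (hX : L X) (hY : L Y) : L (fun e => pn (X e) (Y e)) := by
  have hXX : L (fun e => X e * X e) := hX.mul hX
  refine L.add ?_ (((L.const 2).mul (L.powT (L.const 4) (hX.sz.sub (L.const 1)) hXX)).mul hY)
  refine L.sum (f := fun e i => (1 + 2 * dgt 2 (X e) i) * powT 4 i (X e * X e))
    (B := fun e => 3 * (X e * X e)) (hX.sz.sub (L.const 1)) ?_ ((L.const 3).mul hXX)
    fun e i _ => ?_
  · exact ((L.const 1).add ((L.const 2).mul (L.dgt (L.const 2) hX.tl (L.var 0)))).mul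
      (L.powT (L.const 4) (L.var 0) hXX.tl)
  · refine Nat.mul_le_mul ?_ (min_le_right _ _)
    have : dgt 2 (X e) i < 2 := V7H59.CT.dgt_lt (by norm_num) _ _
    omega

theorem pairBits_inj {x y x' y' : List Bool} (h : pairBits x y = pairBits x' y') :
    x = x' ∧ y = y' := by
  have h1 := congrArg unpair h
  rw [unpair_pairBits, unpair_pairBits, Prod.mk.injEq] at h1
  exact h1

theorem length_pairBits (x y : List Bool) : (pairBits x y).length = 2 * x.length + 1 + y.length := by
  unfold pairBits
  rw [List.length_append, List.length_flatMap]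
  have : (x.map fun b => [true, b].length).sum = 2 * x.length := by
    induction x with
    | nil => rfl
    | cons a x ih => rw [List.map_cons, List.sum_cons, ih, List.length_cons]; simp; ring
  rw [this, List.length_cons]
  omega

/-! ### Functions computable in linear space -/

/-- The functions on strings which are computable in linear space, by a function of the class
`L`. -/
def DLin (g : List Bool → List Bool) : Prop :=
  ∃ F : (ℕ → ℕ) → ℕ, L F ∧ ∀ (x : List Bool) (e : ℕ → ℕ), e 0 = num x → F e = num (g x)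

theorem DLin.app {g : List Bool → List Bool} (hg : DLin g) : ∃ F : ℕ → ℕ,
    (∀ {A : (ℕ → ℕ) → ℕ}, L A → L (fun e => F (A e))) ∧ ∀ x, F (num x) = num (g x) := by
  obtain ⟨F, hF, h1⟩ := hg
  refine ⟨fun n => F fun _ => n, fun {A} hA => ?_, fun x => h1 x _ rfl⟩
  exact L.subst hF (g := fun _ e => A e) fun _ => hA

theorem DLin.of_app {g : List Bool → List Bool} {F : ℕ → ℕ} (hF : L (fun e => F (e 0)))
    (h : ∀ x, F (num x) = num (g x)) : DLin g :=
  ⟨_, hF, fun x e he => by rw [he, h]⟩

theorem DLin.id : DLin fun x => x := ⟨_, L.var 0, fun _ _ h => h⟩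

theorem DLin.comp {f g : List Bool → List Bool} (hf : DLin f) (hg : DLin g) :
    DLin fun x => f (g x) := by
  obtain ⟨F, hF, h1⟩ := hf.app
  obtain ⟨G, hG, h2⟩ := hg.app
  exact DLin.of_app (F := fun n => F (G n)) (hF (hG (L.var 0))) fun x => by rw [h2, h1]

theorem DLin.inv {g : Perm (List Bool)} (hL : g ∈ LPerm) (hg : DLin g) : DLin g.symm := by
  obtain ⟨F, hF, h1⟩ := hg.app
  refine DLin.of_app (F := fun n => lfind (fun k => if F (k + 1) = n then 1 else 0) (2 * n) + 1)
    (L.succ (L.find (P := fun e k => if F (k + 1) = e 0 then 1 else 0)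
      ((L.const 2).mul (L.var 0)) (L.ite_eq (hF (L.var 0).succ) (L.var 1) (L.const 1) L.zero)))
    fun x => ?_
  have hlen : (g.symm x).length = x.length := by
    have := hL (g.symm x)
    rw [g.apply_symm_apply] at this
    exact this.symm
  have hp := num_pos (g.symm x)
  have hlt := num_lt_two_mul hlen
  have h2 := lfind_eq (P := fun k => if F (k + 1) = num x then 1 else 0) (N := 2 * num x)
    (k := num (g.symm x) - 1) (by omega) (by
      simp only [Nat.sub_add_cancel hp, h1, g.apply_symm_apply, if_true]
      exact one_ne_zero) fun i hi => by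
      rw [if_neg]
      intro h3
      obtain ⟨y, hy⟩ := exists_num_eq (Nat.succ_pos i)
      rw [← Nat.succ_eq_add_one, ← hy, h1] at h3
      have h4 := num_injective h3
      rw [← h4, g.symm_apply_apply, hy] at hi
      omega
  rw [h2]
  omega

theorem dlin_of_graph {g : List Bool → List Bool} (hl : ∀ w, (g w).length = w.length)
    (h : InLinSpace (graph g)) : DLin g := by
  classical
  obtain ⟨G, hG, h1⟩ := L_of_inLinSpace h
  have hGa : ∀ {A : (ℕ → ℕ) → ℕ}, L A → L (fun e => G fun _ => A e) := fun {A} hA =>
    L.subst hG (g := fun _ e => A e) fun _ => hA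
  refine DLin.of_app (F := fun n => lfind (fun k => G fun _ => pn n (k + 1)) (2 * n) + 1)
    (L.succ (L.find (P := fun e k => G fun _ => pn (e 0) (k + 1))
      ((L.const 2).mul (L.var 0)) (hGa (L_pn (L.var 1) (L.var 0).succ)))) fun x => ?_
  have hp := num_pos (g x)
  have hlt := num_lt_two_mul (hl x)
  have h2 := lfind_eq (P := fun k => G fun _ => pn (num x) (k + 1)) (N := 2 * num x)
    (k := num (g x) - 1) (by omega) (by
      simp only [Nat.sub_add_cancel hp, pn_num]
      rw [h1 (pairBits x (g x)) _ rfl, if_pos ⟨x, rfl⟩]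
      exact one_ne_zero) fun i hi => by
      obtain ⟨y, hy⟩ := exists_num_eq (Nat.succ_pos i)
      rw [← Nat.succ_eq_add_one, ← hy]
      simp only [pn_num]
      rw [h1 (pairBits x y) _ rfl, if_neg]
      rintro ⟨x', hx'⟩
      obtain ⟨rfl, rfl⟩ := pairBits_inj hx'
      omega
  rw [h2]
  omega

theorem inLinSpace_graph {g : List Bool → List Bool} (h : DLin g) : InLinSpace (graph g) := by
  obtain ⟨F, hF, h1⟩ := h.app
  refine inLinSpace_of_L (F := fun e => e 0 -
    lfind (fun k => if pn (k + 1) (F (k + 1)) = e 0 then 1 else 0) (e 0))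
    ((L.var 0).sub (L.find (P := fun e k => if pn (k + 1) (F (k + 1)) = e 0 then 1 else 0)
      (L.var 0) (L.ite_eq (L_pn (L.var 0).succ (hF (L.var 0).succ)) (L.var 1) (L.const 1)
        L.zero))) _ fun w => ?_
  rw [Function.update_self]
  constructor
  · rintro ⟨x, rfl⟩
    have hlt : num x < num (pairBits x (g x)) := num_lt_of_length_lt (by
      rw [length_pairBits]; omega)
    have hp := num_pos x
    obtain ⟨h2, h3⟩ := lfind_spec (fun k => if pn (k + 1) (F (k + 1)) = num (pairBits x (g x))
      then 1 else 0) (num (pairBits x (g x)))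
    intro h4
    have h5 : num (pairBits x (g x)) ≤ lfind (fun k => if pn (k + 1) (F (k + 1)) =
      num (pairBits x (g x)) then 1 else 0) (num (pairBits x (g x))) := by omega
    have h6 := h2 (num x - 1) (by omega)
    simp only [Nat.sub_add_cancel hp, h1, pn_num, if_true] at h6
    exact one_ne_zero h6
  · intro h
    obtain ⟨h2, h3⟩ := lfind_spec (fun k => if pn (k + 1) (F (k + 1)) = num w then 1 else 0)
      (num w)
    have h4 := h3 (by omega)
    obtain ⟨x, hx⟩ := exists_num_eq (Nat.succ_pos (lfind (fun k =>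
      if pn (k + 1) (F (k + 1)) = num w then 1 else 0) (num w)))
    simp only [← Nat.succ_eq_add_one, ← hx, h1, pn_num] at h4
    refine ⟨x, ?_⟩
    by_contra hne
    exact h4 (if_neg fun e => hne (num_injective e).symm)

end Pool.Agent.V7H56.LS
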