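import Pool.Agent.V7H56.LS.Group

/-!
# Polynomial space is not contained in linear space
-/

set_option autoImplicit false

namespace Pool.Agent.V7H56.LS

open Pool.Agent.NPC Pool.Agent.NPC.PIso Pool.Agent.V7H56.PP Pool.Agent.V7H56.RG
open Pool.Agent.H583R2 (Ent Ins Code UCfg symIx stepI stepU initU runU U stepU_len)
open Pool.Agent.V7H59.CT (InLinSpace num num_pos num_bits num_size)

section

variable {α β : Type} [TEnc α] [TEnc β]

theorem Poly_setv {l : α → List β} {n : α → ℕ} {v : α → β} (hl : Poly l) (hn : Poly n)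
    (hv : Poly v) : Poly (fun a => (l a).set (n a) (v a)) := by
  refine (NPC.Poly.map (F := fun (a : α) (p : β × ℕ) => bif decide (p.2 = n a) then v a else p.1)
    (Poly.zipIdx hl) (Poly.cond (Poly.decide_eq (Poly.snd (Poly.snd Poly.id))
      (hn.comp (Poly.fst Poly.id))) (hv.comp (Poly.fst Poly.id))
        (Poly.fst (Poly.snd Poly.id)))).congr fun a => ?_
  apply List.ext_getElem
  · simp
  · intro i h1 h2
    simp only [List.getElem_map, List.getElem_zipIdx, List.getElem_set, Nat.zero_add]
    by_cases h : i = n a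
    · simp [h]
    · rw [if_neg (fun e => h e.symm)]
      simp [h]

theorem poly_symIx {o : α → Option ℕ} (ho : Poly o) : Poly (fun a => symIx (o a)) := by
  refine (Poly.optCases (g := fun _ => 0) (h := fun _ x => x + 1) ho (NPC.Poly.const 0)
    (Poly.succ (Poly.snd Poly.id))).congr fun a => ?_
  cases o a <;> rfl

theorem poly_stepI {i : α → Ins} {s : α → List (List ℕ)} (hi : Poly i) (hs : Poly s) :
    Poly (fun a => stepI (i a) (s a)) := by
  have h1 : Poly (fun a => (i a).1) := Poly.fst hi
  have h2 : Poly (fun a => (i a).2) := Poly.snd hi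
  have h0 : Poly (fun a => (s a).getD (i a).1 []) := Poly.getD hs h1 (NPC.Poly.const [])
  have he : Poly (fun a => (i a).2.getD (symIx ((s a).getD (i a).1 []).head?) (0, 0, 0)) :=
    Poly.getD h2 (poly_symIx (Poly.head? h0)) (NPC.Poly.const _)
  have hp : Poly (fun a => (s a).set (i a).1 ((s a).getD (i a).1 []).tail) :=
    Poly_setv hs h1 (Poly.tail h0)
  exact Poly.pair (Poly.snd (Poly.snd he)) (Poly_setv hp (Poly.fst he)
    (Poly.cons (Poly.fst (Poly.snd he)) (Poly.getD hp (Poly.fst he) (NPC.Poly.const []))))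

theorem poly_stepU {I : α → List Ins} {c : α → UCfg} (hI : Poly I) (hc : Poly c) :
    Poly (fun a => stepU (I a) (c a)) := by
  refine (Poly.optCases (o := fun a => (I a)[(c a).1]?) (g := fun a => c a)
    (h := fun a ins => stepI ins (c a).2) (Poly.getElem? hI (Poly.fst hc)) hc
    (poly_stepI (Poly.snd Poly.id) (Poly.snd (hc.comp (Poly.fst Poly.id))))).congr fun a => ?_
  unfold stepU
  rcases (I a)[(c a).1]? with _ | _ <;> rfl

end

/-! ### The universal computation -/

/-- Codes, with the number of stacks in unary. -/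
abbrev Cu := Code × List Bool

/-- the start -/
def init' (q : Cu) (x : List Bool) : UCfg :=
  (q.1.2.1, (q.2.map fun _ => []).set q.1.2.2.2.1
    (x.map fun b => bif b then q.1.2.2.2.2.1.2 else q.1.2.2.2.2.1.1))

theorem poly_init' : Poly (fun p : Cu × List Bool => init' p.1 p.2) := by
  have hc : Poly (fun p : Cu × List Bool => p.1.1) := Poly.fst (Poly.fst Poly.id)
  have h1 : Poly (fun p : Cu × List Bool => p.1.1.2.1) := Poly.fst (Poly.snd hc)
  have h3 : Poly (fun p : Cu × List Bool => p.1.1.2.2.2.1) :=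
    Poly.fst (Poly.snd (Poly.snd (Poly.snd hc)))
  have h4 : Poly (fun p : Cu × List Bool => p.1.1.2.2.2.2.1) :=
    Poly.fst (Poly.snd (Poly.snd (Poly.snd (Poly.snd hc))))
  refine Poly.pair h1 (Poly_setv ?_ h3 ?_)
  · exact NPC.Poly.map (F := fun (_ : Cu × List Bool) (_ : Bool) => ([] : List ℕ))
      (Poly.snd (Poly.fst Poly.id)) (NPC.Poly.const [])
  · exact NPC.Poly.map (F := fun (p : Cu × List Bool) (b : Bool) =>
      bif b then p.1.1.2.2.2.2.1.2 else p.1.1.2.2.2.2.1.1) (Poly.snd Poly.id)
      (Poly.cond (Poly.snd Poly.id) (Poly.snd (h4.comp (Poly.fst Poly.id)))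
        (Poly.fst (h4.comp (Poly.fst Poly.id))))

/-- a step which is done only if the result is small -/
def cst (I : List Ins) (B : ℕ) (c : UCfg) : UCfg :=
  bif decide (sz (stepU I c) ≤ B) then stepU I c else c

/-- the space -/
def kp (w : List Bool) : ℕ := w.length * w.length

theorem upoly_kp : UPoly kp := UPoly.mul (UPoly.length Poly.id) (UPoly.length Poly.id)

/-- the universal computation -/
def uni (p : Cu × List Bool) : UCfg :=
  (cst p.1.1.1 (kp p.2))^[2 ^ (kp p.2 + 1)] (init' p.1 p.2)

theorem sz_cst (I : List Ins) (B : ℕ) (c : UCfg) (i : ℕ) : sz ((cst I B)^[i] c) ≤ sz c + B := by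
  induction i with
  | zero => simp
  | succ i ih =>
    rw [Function.iterate_succ_apply']
    generalize (cst I B)^[i] c = d at ih ⊢
    unfold cst
    by_cases h : sz (stepU I d) ≤ B
    · rw [decide_eq_true h, cond_true]; omega
    · rw [decide_eq_false h, cond_false]; exact ih

theorem sp_uni : SP uni := by
  have hk : UPoly (fun p : Cu × List Bool => kp p.2) := upoly_kp.comp (Poly.snd Poly.id)
  obtain ⟨r, hr⟩ := poly_init'.sz_le
  refine SP.iter (n := fun p : Cu × List Bool => 2 ^ (kp p.2 + 1))
    (s := fun p => init' p.1 p.2) (G := fun p c => cst p.1.1.1 (kp p.2) c)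
    (SP.of_poly (poly_two_pow (UPoly.add hk (UPoly.const 1)))) (SP.of_poly poly_init')
    (SP.of_poly ?_) (r + Polynomial.X * Polynomial.X) fun p i _ => ?_
  · have h1 : Poly (fun q : (Cu × List Bool) × UCfg => stepU q.1.1.1.1 q.2) :=
      poly_stepU (Poly.fst (Poly.fst (Poly.fst (Poly.fst Poly.id)))) (Poly.snd Poly.id)
    have h2 : Poly (fun c : UCfg => sz c) := UPoly.toPoly (UPoly.length PP.poly_bits)
    exact Poly.cond (Poly.decide_le (h2.comp h1) (hk.toPoly.comp (Poly.fst Poly.id))) h1
      (Poly.snd Poly.id)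
  · refine (sz_cst _ _ _ i).trans ?_
    simp only [Polynomial.eval_add, Polynomial.eval_mul, Polynomial.eval_X]
    refine Nat.add_le_add (hr p) ?_
    have h1 := length_lt_sz p.2
    have h2 : sz p.2 ≤ sz p := by
      obtain ⟨a, b⟩ := p
      rw [sz_pair]; simp only; omega
    exact Nat.mul_le_mul (by omega) (by omega)

/-- the output -/
def outU (cd : Code) (c : UCfg) : List Bool :=
  (c.2.getD cd.2.2.2.2.2.1 []).map fun a => cd.2.2.2.2.2.2.getD a false

theorem poly_outU : Poly (fun p : Code × UCfg => outU p.1 p.2) := by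
  have h5 : Poly (fun p : Code × UCfg => p.1.2.2.2.2.2.1) :=
    Poly.fst (Poly.snd (Poly.snd (Poly.snd (Poly.snd (Poly.snd (Poly.fst Poly.id))))))
  have h6 : Poly (fun p : Code × UCfg => p.1.2.2.2.2.2.2) :=
    Poly.snd (Poly.snd (Poly.snd (Poly.snd (Poly.snd (Poly.snd (Poly.fst Poly.id))))))
  exact NPC.Poly.map (F := fun (p : Code × UCfg) (a : ℕ) => p.1.2.2.2.2.2.2.getD a false)
    (Poly.getD (Poly.snd (Poly.snd Poly.id)) h5 (NPC.Poly.const []))
    (Poly.getD (h6.comp (Poly.fst Poly.id)) (Poly.snd Poly.id) (NPC.Poly.const false))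

/-- the code in an input -/
def cdw (w : List Bool) : Cu := (unbits Cu (unpair w).1).getD (([], 0, 0, 0, (0, 0), 0, []), [])

theorem poly_cdw : Poly cdw := by
  refine (Poly.optCases (o := fun w : List Bool => unbits Cu (unpair w).1)
    (g := fun _ => (([], 0, 0, 0, (0, 0), 0, []), [])) (h := fun _ c => c)
    (poly_unbits.comp (Poly.fst poly_unpair)) (NPC.Poly.const _) (Poly.snd Poly.id)).congr
      fun w => ?_
  unfold cdw
  cases unbits Cu (unpair w).1 <;> rfl

/-- the diagonal -/
def diag (w : List Bool) : Bool := !decide (outU (cdw w).1 (uni (cdw w, w)) = [true])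

theorem sp_diag : SP diag := by
  have h1 : SP (fun w : List Bool => uni (cdw w, w)) :=
    sp_uni.comp (SP.of_poly (Poly.pair poly_cdw Poly.id))
  have h0 : SP (fun w : List Bool => (cdw w).1) := SP.of_poly (Poly.fst poly_cdw)
  have h2 : SP (fun w : List Bool => ((cdw w).1, uni (cdw w, w))) := SP.pair h0 h1
  have h3 : Poly (fun p : Code × UCfg => !decide (outU p.1 p.2 = [true])) :=
    Poly.not (Poly.decide_eq poly_outU (NPC.Poly.const [true]))
  have h4 : SP (fun w : List Bool => !decide (outU (cdw w).1 (uni (cdw w, w)) = [true])) :=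
    SP.app (h := fun p : Code × UCfg => !decide (outU p.1 p.2 = [true]))
      (f := fun w : List Bool => ((cdw w).1, uni (cdw w, w))) h3 h2
  exact h4

theorem run_good {b : ℕ} {cd : Code} (hI : SmI b cd.1)
    (h0 : cd.2.2.2.2.1.1 + cd.2.2.2.2.1.2 + cd.2.1 + 2 < b) (x : List Bool) (i : ℕ) :
    (runU cd x i).2.length = cd.2.2.1 ∧ Sml b (runU cd x i) := by
  induction i with
  | zero =>
    refine ⟨by simp [runU, initU], show cd.2.1 < b by omega, fun j a ha => ?_⟩
    change a ∈ ((List.replicate cd.2.2.1 []).set cd.2.2.2.1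
      (x.map fun b => if b then cd.2.2.2.2.1.2 else cd.2.2.2.2.1.1)).getD j [] at ha
    rw [Pool.Agent.H583R2.getD_set] at ha
    split at ha
    · obtain ⟨c, _, rfl⟩ := List.mem_map.1 ha
      split_ifs <;> omega
    · rw [List.getD_eq_getElem?_getD, List.getElem?_replicate] at ha
      split at ha <;> simp at ha
  | succ i ih =>
    have e : runU cd x (i + 1) = stepU cd.1 (runU cd x i) :=
      Function.iterate_succ_apply' _ _ _
    rw [e]
    exact ⟨by rw [stepU_length]; exact ih.1, ih.2.step hI⟩

theorem sz_cfg_le {b K l : ℕ} {c : UCfg} (hK : c.2.length = K) (hs : Sml b c)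
    (hl : ∀ j, (c.2.getD j []).length ≤ l) :
    sz c ≤ K * (l * (2 * sz b + 1) + 2) + 2 * sz b + 2 := by
  have h1 : sz c.1 ≤ 2 * sz b := sz_nat_mono_le hs.1.le
  have h2 : sz c.2 ≤ c.2.length * (l * (2 * sz b + 1) + 1 + 1) + 1 := by
    refine sz_le_length_mul c.2 _ fun s hs' => ?_
    obtain ⟨j, hj, rfl⟩ := List.getElem_of_mem hs'
    have e : c.2.getD j [] = c.2[j] := by simp [List.getD_eq_getElem?_getD, hj]
    have h3 := sz_le_length_mul c.2[j] (2 * sz b) fun a ha => by
      refine sz_nat_mono_le ?_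
      have := hs.2 j a (by rw [e]; exact ha)
      omega
    have h4 := hl j
    rw [e] at h4
    have h5 : c.2[j].length * (2 * sz b + 1) ≤ l * (2 * sz b + 1) := Nat.mul_le_mul_right _ h4
    omega
  have h3 : sz c = sz c.1 + sz c.2 + 1 := sz_pair _ _
  rw [hK] at h2
  rw [h3]
  have e : K * (l * (2 * sz b + 1) + 1 + 1) = K * (l * (2 * sz b + 1) + 2) := rfl
  omega

/-- **A space hierarchy theorem.** -/
theorem diag_not_lin : ¬ InLinSpace {w | diag w = true} := by
  rintro ⟨f, M, C, hf, hC⟩
  obtain ⟨cd, D, hcd⟩ := exists_code M.inputAlphabet M.outputAlphabet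
  obtain ⟨b, hb, hI⟩ := exists_smI cd.1 (cd.2.2.2.2.1.1 + cd.2.2.2.2.1.2 + cd.2.1 + 2)
  set u : List Bool := List.replicate cd.2.2.1 true with hu
  set c0 : List Bool := bits ((cd, u) : Cu) with hc0
  set A : ℕ := cd.2.2.1 * ((C + D) * (2 * sz b + 1) + 2) + 2 * sz b + 2 with hA
  set w : List Bool := pairBits c0 (List.replicate (2 * A) true) with hw
  have hwl : 2 * A + 1 ≤ w.length := by
    rw [hw, length_pairBits, List.length_replicate]; omega
  have hcdw : cdw w = (cd, u) := by
    unfold cdw
    rw [hw, unpair_pairBits, hc0]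
    simp only [unbits_bits, Option.getD_some]
  obtain ⟨n, hn⟩ := M.outputsFun w
  obtain ⟨⟨m, hm1, hm2⟩, hU⟩ := hcd w (C * (w.length + 1)) n (f w) hn fun i c hc =>
    length_le_of_space (hC w c (reaches_of_iter i _ c hc))
  have hgood := run_good hI hb w
  have hsz : ∀ i ≤ m, sz (runU cd w i) ≤ kp w := by
    intro i hi
    have h1 := sz_cfg_le (hgood i).1 (hgood i).2 (hm2 i hi)
    refine h1.trans ?_
    have h2 : C * (w.length + 1) + D ≤ (C + D) * (w.length + 1) := by
      rw [add_mul]
      exact Nat.add_le_add_left (Nat.le_mul_of_pos_right _ (by omega)) _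
    have h3 : (C * (w.length + 1) + D) * (2 * sz b + 1) + 2 ≤
        ((C + D) * (2 * sz b + 1) + 2) * (w.length + 1) := by
      calc (C * (w.length + 1) + D) * (2 * sz b + 1) + 2 ≤
          (C + D) * (w.length + 1) * (2 * sz b + 1) + 2 :=
            Nat.add_le_add_right (Nat.mul_le_mul_right _ h2) _
        _ ≤ (C + D) * (w.length + 1) * (2 * sz b + 1) + 2 * (w.length + 1) := by omega
        _ = _ := by ring
    calc cd.2.2.1 * ((C * (w.length + 1) + D) * (2 * sz b + 1) + 2) + 2 * sz b + 2 ≤
        cd.2.2.1 * (((C + D) * (2 * sz b + 1) + 2) * (w.length + 1)) +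
          (2 * sz b + 2) * (w.length + 1) := by
          rw [add_assoc]
          exact Nat.add_le_add (Nat.mul_le_mul_left _ h3) (Nat.le_mul_of_pos_right _ (by omega))
      _ = A * (w.length + 1) := by rw [hA]; ring
      _ ≤ A * (2 * w.length) := Nat.mul_le_mul_left _ (by omega)
      _ = 2 * A * w.length := by ring
      _ ≤ w.length * w.length := Nat.mul_le_mul_right _ (by omega)
  -- the computation
  have hinit : init' (cd, u) w = runU cd w 0 := by
    change (cd.2.1, _) = (cd.2.1, _)
    congr 2
    · rw [hu]; simp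
    · refine List.map_congr_left fun a _ => ?_
      cases a <;> rfl
  have hit : ∀ i ≤ m, (cst cd.1 (kp w))^[i] (init' (cd, u) w) = runU cd w i := by
    intro i
    induction i with
    | zero => intro _; exact hinit
    | succ i ih =>
      intro hi
      have e : runU cd w (i + 1) = stepU cd.1 (runU cd w i) :=
        Function.iterate_succ_apply' _ _ _
      rw [Function.iterate_succ_apply', ih (by omega)]
      unfold cst
      rw [← e, decide_eq_true (hsz (i + 1) hi), cond_true]
  have hfixc : stepU cd.1 (runU cd w m) = runU cd w m := by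
    unfold stepU
    rw [List.getElem?_eq_none hm1]
  have hfix : cst cd.1 (kp w) (runU cd w m) = runU cd w m := by
    unfold cst
    rw [hfixc]
    cases decide (sz (runU cd w m) ≤ kp w) <;> rfl
  have huni : uni ((cd, u), w) = runU cd w m := by
    unfold uni
    rw [← hit m le_rfl]
    refine iterate_bound_gen (fun c : UCfg => num (bits c))
      (fun _ _ h => bits_injective (num_injective h)) (fun i hi => ?_) ?_
    · rw [hit i hi]
      refine (num_lt _).trans_le (Nat.pow_le_pow_right (by norm_num) ?_)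
      have h5 : sz (runU cd w i) ≤ kp w := hsz i hi
      rw [bits_length]
      change sz (runU cd w i) + 1 ≤ kp w + 1
      omega
    · rw [hit m le_rfl, hfix]
  have hUm := hU m hm1
  unfold U at hUm
  rw [if_neg (by simpa using hm1)] at hUm
  have hout : outU cd (runU cd w m) = [f w] := Option.some.inj hUm
  have hd : diag w = !decide ([f w] = [true]) := by
    unfold diag
    rw [hcdw, huni, hout]
  have h1 := hf w
  rw [Set.mem_ofPred_eq, hd] at h1
  cases hfw : f w
  · rw [hfw] at h1
    simp at h1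
  · rw [hfw] at h1
    simp at h1

theorem not_pspace_sub_lin : ¬ ∀ S, InPSPACE S → InLinSpace S := fun h =>
  diag_not_lin (h _ sp_diag.inPSPACE)

end Pool.Agent.V7H56.LS
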