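import Pool.Agent.V7H56.LS.Group

/-!
# Permutations computable in linear space are products of two involutions
-/

set_option autoImplicit false

namespace Pool.Agent.V7H56.LS

open Pool.Agent.NPC Pool.Agent.NPC.PIso Pool.Agent.V7H56.PP Pool.Agent.V7H56.RG Equiv Finset
open Pool.Agent.V7H59.CT (L InLinSpace num num_pos brec brec_eq_iter iter lfind lfind_eq lfind_le
  lfind_spec)
open Function (minimalPeriod)

theorem num_eq (x : List Bool) : num x = 2 ^ x.length + valB x := by
  induction x with
  | nil => rfl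
  | cons a l ih =>
    rw [num_cons, ih, List.length_cons, pow_succ]
    cases a <;> simp [valB] <;> ring

section

variable (F : ℕ → ℕ)

/-- powers -/
def pwN (k X : ℕ) : ℕ := brec (2 * X) X (fun _ y => F y) k

/-- period -/
def perN (X : ℕ) : ℕ := lfind (fun k => if pwN F (k + 1) X = X then 1 else 0) X + 1

/-- the number of steps from `X` to `Y` -/
def stN (X Y : ℕ) : ℕ := lfind (fun k => if pwN F k X = Y then 1 else 0) X

/-- the least point on the orbit -/
def mnN (X : ℕ) : ℕ := lfind (fun Y => if stN F X Y < X then 1 else 0) (2 * X)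

/-- the reflection -/
def rfN (X : ℕ) : ℕ := pwN F (perN F X - stN F (mnN F X) X) (mnN F X)

variable {F} (hF : ∀ {A : (ℕ → ℕ) → ℕ}, L A → L (fun e => F (A e)))

include hF

theorem L_pwN {K X : (ℕ → ℕ) → ℕ} (hK : L K) (hX : L X) : L (fun e => pwN F (K e) (X e)) :=
  L.brec (h := fun _ _ y => F y) ((L.const 2).mul hX) hX (hF (L.var 0)) hK

theorem L_perN {X : (ℕ → ℕ) → ℕ} (hX : L X) : L (fun e => perN F (X e)) :=
  L.succ (L.find (P := fun e k => if pwN F (k + 1) (X e) = X e then 1 else 0) hX
    (L.ite_eq (L_pwN hF (L.var 0).succ hX.tl) hX.tl (L.const 1) L.zero))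

theorem L_stN {X Y : (ℕ → ℕ) → ℕ} (hX : L X) (hY : L Y) : L (fun e => stN F (X e) (Y e)) :=
  L.find (P := fun e k => if pwN F k (X e) = Y e then 1 else 0) hX
    (L.ite_eq (L_pwN hF (L.var 0) hX.tl) hY.tl (L.const 1) L.zero)

theorem L_mnN {X : (ℕ → ℕ) → ℕ} (hX : L X) : L (fun e => mnN F (X e)) :=
  L.find (P := fun e Y => if stN F (X e) Y < X e then 1 else 0) ((L.const 2).mul hX)
    (L.ite_lt (L_stN hF hX.tl (L.var 0)) hX.tl (L.const 1) L.zero)

theorem L_rfN {X : (ℕ → ℕ) → ℕ} (hX : L X) : L (fun e => rfN F (X e)) :=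
  L_pwN hF ((L_perN hF hX).sub (L_stN hF (L_mnN hF hX) hX)) (L_mnN hF hX)

end

section

variable {F : ℕ → ℕ} {f : List Bool → List Bool} (hf : LI f) (h : ∀ x, F (num x) = num (f x))

include hf h

theorem pwN_num (k : ℕ) (x : List Bool) : pwN F k (num x) = num (f^[k] x) := by
  have key : ∀ k, iter (fun _ y => F y) k (num x) = num (f^[k] x) := by
    intro k
    induction k with
    | zero => rfl
    | succ k ih => rw [iter, ih, h, Function.iterate_succ_apply']
  unfold pwN
  rw [brec_eq_iter, key]
  intro i _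
  rw [key]
  exact (num_lt_two_mul (hf.iter_len i x)).le

theorem perN_num (x : List Bool) : perN F (num x) = minimalPeriod f x := by
  have hp := hf.period_pos x
  have hle := (hf.period_le x).trans (two_pow_le_num x)
  unfold perN
  rw [lfind_eq (k := minimalPeriod f x - 1) (by omega) (by
    rw [Nat.sub_add_cancel hp, pwN_num hf h, if_pos]
    · exact one_ne_zero
    · exact congrArg num (Function.isPeriodicPt_minimalPeriod f x)) fun i hi => by
      rw [pwN_num hf h, if_neg]
      intro e
      have := Function.IsPeriodicPt.minimalPeriod_le (Nat.succ_pos i) (num_injective e)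
      omega]
  omega

theorem stN_num {x y : List Bool} {k : ℕ} (hk : f^[k] x = y) :
    stN F (num x) (num y) < num x ∧ f^[stN F (num x) (num y)] x = y := by
  have hp := hf.period_pos x
  have hle := (hf.period_le x).trans (two_pow_le_num x)
  obtain ⟨h1, h2⟩ := lfind_spec (fun k => if pwN F k (num x) = num y then 1 else 0) (num x)
  have h3 : stN F (num x) (num y) < num x := by
    by_contra hcon
    have h4 := h1 (k % minimalPeriod f x) (by
      have := Nat.mod_lt k hp
      unfold stN at hcon
      omega)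
    rw [pwN_num hf h, Function.iterate_mod_minimalPeriod_eq, hk, if_pos rfl] at h4
    exact one_ne_zero h4
  refine ⟨h3, ?_⟩
  have h4 : (if pwN F (stN F (num x) (num y)) (num x) = num y then 1 else 0) ≠ 0 := h2 h3
  rw [pwN_num hf h] at h4
  by_contra hcon
  exact h4 (if_neg fun e => hcon (num_injective e))

theorem stN_not {x y : List Bool} (hk : ∀ k, f^[k] x ≠ y) : ¬ stN F (num x) (num y) < num x := by
  intro hlt
  obtain ⟨h1, h2⟩ := lfind_spec (fun k => if pwN F k (num x) = num y then 1 else 0) (num x)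
  have h4 : (if pwN F (stN F (num x) (num y)) (num x) = num y then 1 else 0) ≠ 0 := h2 hlt
  rw [pwN_num hf h] at h4
  exact h4 (if_neg fun e => hk _ (num_injective e))

theorem mnN_num (x : List Bool) : mnN F (num x) = num (mn f x) := by
  have hmn : f^[mi f x] x = mn f x := rfl
  have hmin := hf.mn_min x
  refine lfind_eq (num_lt_two_mul (hf.mn_len x)) (by
    rw [if_pos (stN_num hf h hmn).1]
    exact one_ne_zero) fun Y hY => ?_
  rw [if_neg]
  intro hlt
  -- the value is attained
  obtain ⟨h1, h2⟩ := lfind_spec (fun k => if pwN F k (num x) = Y then 1 else 0) (num x)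
  have h4 : (if pwN F (stN F (num x) Y) (num x) = Y then 1 else 0) ≠ 0 := h2 hlt
  rw [pwN_num hf h] at h4
  have h5 : num (f^[stN F (num x) Y] x) = Y := by
    by_contra hcon
    exact h4 (if_neg hcon)
  obtain ⟨j, hj⟩ := hf.symm_iter hmn
  have h6 := hmin (stN F (num x) Y + j)
  rw [Function.iterate_add_apply, hj] at h6
  rw [← h5, num_eq (f^[stN F (num x) Y] x), num_eq (mn f x), hf.iter_len, hf.mn_len] at hY
  omega

theorem rfN_num (x : List Bool) : rfN F (num x) = num (rfx f x) := by
  unfold rfN rfx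
  rw [perN_num hf h, mnN_num hf h, pwN_num hf h]
  congr 2
  have h1 : stN F (num (mn f x)) (num x) = di f x := by
    have h2 := hf.di_spec x
    have h3 := hf.di_lt x
    rw [← hf.mn_period] at h3
    have hle := (hf.period_le (mn f x)).trans (two_pow_le_num (mn f x))
    refine lfind_eq (by omega) (by
      rw [pwN_num hf h, h2, if_pos rfl]
      exact one_ne_zero) fun i hi => ?_
    rw [pwN_num hf h, if_neg]
    intro e
    have h4 : f^[i] (mn f x) = f^[di f x] (mn f x) := (num_injective e).trans h2.symm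
    rw [hf.modEq] at h4
    have h5 := Nat.ModEq.eq_of_lt_of_lt h4 (hi.trans h3) h3
    omega
  rw [h1]

end

theorem DPerm_strongly_real {g : Perm (List Bool)} (hg : g ∈ DPerm) :
    ∃ a ∈ DPerm, ∃ b ∈ DPerm, a * a = 1 ∧ b * b = 1 ∧ g = a * b := by
  have hL := DPerm_le hg
  have hli := li_of_mem hL
  obtain ⟨F, hF, h⟩ := (mem_DPerm.1 hg).2.app
  have ha : rfxP hli ∈ DPerm :=
    mem_DPerm.2 ⟨rfxP_mem hL, DLin.of_app (L_rfN hF (L.var 0)) (rfN_num hli h)⟩
  refine ⟨_, ha, _, DPerm.mul_mem ha hg, rfxP_sq _, rfxP_mul_sq hL, ?_⟩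
  rw [← mul_assoc, rfxP_sq, one_mul]

end Pool.Agent.V7H56.LS
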