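import Pool.Agent.V7H56.LS.Cnj
import Pool.Agent.V7H56.LS.Str
import Pool.Agent.V7H56.LS.Emb
import Pool.Agent.V7H56.LS.ClDef

/-!
# The groups determine the classes
-/

set_option autoImplicit false

namespace Pool.Agent.V7H56.LS

open Pool.Agent.NPC Pool.Agent.NPC.PIso Pool.Agent.V7H56.PP Pool.Agent.V7H56.RG Equiv
open Pool.Agent.V7H59.CT (InLinSpace)

theorem Cl.mem_lang (c : Cl) (S : Set (List Bool)) : S ∈ c.lang ↔ fP S ∈ c.grp := by
  cases c
  · exact fP_mem_PPerm.symm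
  · exact fP_mem_NPerm.symm
  · exact fP_mem_DPerm.symm
  · exact fP_mem_SPerm.symm

theorem Cl.lang_sub {c d : Cl} (h : c.grp ≤ d.grp) : c.lang ⊆ d.lang := fun S hS =>
  (d.mem_lang S).2 (h ((c.mem_lang S).1 hS))

theorem Cl.grp_le_SPerm (c : Cl) : c.grp ≤ SPerm := by
  cases c
  · exact PPerm_le_SPerm
  · exact NPerm_le_SPerm
  · exact DPerm_le_SPerm
  · exact le_rfl

theorem Cl.big (c : Cl) : Big c.grp := by
  cases c
  · exact big_PPerm
  · exact big_NPerm
  · exact big_DPerm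
  · exact big_SPerm

theorem Cl.three (c : Cl) : rotP ∈ c.grp ∧ flpP ∈ c.grp ∧ cnotP ∈ c.grp := by
  cases c
  · exact ⟨rotP_mem, flpP_mem, cnotP_mem⟩
  · exact ⟨PPerm_le_NPerm rotP_mem, PPerm_le_NPerm flpP_mem, PPerm_le_NPerm cnotP_mem⟩
  · exact ⟨rotP_mem_DPerm, flpP_mem_DPerm, cnotP_mem_DPerm⟩
  · exact ⟨PPerm_le_SPerm rotP_mem, PPerm_le_SPerm flpP_mem, PPerm_le_SPerm cnotP_mem⟩

/-- Recognition of the groups of the classes which are closed under polynomial-time reductions. -/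
theorem recog_cl {d : Cl} (hd : d ≠ .dlba) {G : Subgroup (Perm (List Bool))} (hG : Big G)
    (h1 : rotP ∈ G) (h2 : flpP ∈ G) (h3 : cnotP ∈ G) (Φ : G ≃* d.grp) : G = d.grp := by
  cases d
  · exact (recog_PPerm hG h1 h2 h3 Φ).1
  · exact (recog FC_np big_NPerm (fun _ => mem_NPerm) hG h1 h2 h3 Φ).1
  · exact absurd rfl hd
  · exact (recog_SPerm hG h1 h2 h3 Φ).1

theorem eq_of_iso {c d : Cl} (h : Nonempty (c.grp ≃* d.grp)) : c.grp = d.grp := by
  obtain ⟨Φ⟩ := h
  obtain ⟨c1, c2, c3⟩ := c.three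
  obtain ⟨d1, d2, d3⟩ := d.three
  by_cases hd : d = .dlba
  · by_cases hc : c = .dlba
    · rw [hc, hd]
    · exact (recog_cl hc d.big d1 d2 d3 Φ.symm).symm
  · exact recog_cl hd c.big c1 c2 c3 Φ

/-! ### The inclusions -/

theorem p_sub_np {S : Set (List Bool)} (h : InP S) : InNP S ∧ InNP Sᶜ := by
  classical
  exact npf_iff.1 (NPf.of_poly (inP_iff.1 h))

open Classical in
theorem FC.graph {C : ∀ (α β : Type) [TEnc α] [TEnc β], (α → β) → Prop} (hC : FC C)
    {g : List Bool → List Bool} (hg : C _ _ g) : C _ _ (fun w => decide (w ∈ RG.graph g)) := by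
  have h1 := hC.comp hg (hC.of_poly (Poly.fst poly_unpair))
  have h2 := hC.comp (g := fun p : List Bool × List Bool =>
    decide (pairBits (unpair p.1).1 p.2 = p.1)) (hC.of_poly (Poly.decide_eq
      (poly_pairBits (Poly.fst (poly_unpair.comp (Poly.fst Poly.id))) (Poly.snd Poly.id))
      (Poly.fst Poly.id))) (hC.pair (hC.of_poly (Poly.id (α := List Bool))) h1)
  have e : (fun w : List Bool => decide (pairBits (unpair w).1 (g (unpair w).1) = w)) =
      fun w => decide (w ∈ RG.graph g) := by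
    funext w
    rw [Bool.eq_iff_iff, decide_eq_true_iff, decide_eq_true_iff]
    constructor
    · intro h; exact ⟨_, h.symm⟩
    · rintro ⟨x, rfl⟩
      rw [unpair_pairBits]
  rw [← e]
  exact h2

theorem graph_mem_lang {c : Cl} {g : Perm (List Bool)} (hg : g ∈ c.grp) : graph g ∈ c.lang := by
  classical
  cases c
  · exact inP_iff.2 (FC.graph FC_poly (mem_PPerm.1 hg).2.1)
  · exact npf_iff.1 (FC.graph FC_np (mem_NPerm.1 hg).2.1)
  · exact hg.2
  · exact hg.2

theorem poly_of_NPf (h : ∀ S, InNP S ∧ InNP Sᶜ → InP S) {g : List Bool → List Bool}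
    (hl : ∀ w, (g w).length = w.length) (hg : NPf g) : Poly g := by
  classical
  refine poly_of_bitL hl ?_
  have h1 : NPf (bitL g) := FC.bitL FC_np hg
  have h2 : NPf (fun w => decide (w ∈ {w | bitL g w = true})) := by simpa using h1
  have h3 := inP_iff.1 (h _ (npf_iff.1 h2))
  simpa using h3

theorem grp_le {c d : Cl} (h : c.lang ⊆ d.lang) : c.grp ≤ d.grp := by
  cases d
  · cases c
    · exact le_rfl
    · intro g hg
      obtain ⟨h1, h2, h3⟩ := mem_NPerm.1 hg
      exact mem_PPerm.2 ⟨h1, poly_of_NPf (fun S hS => h hS) h1 h2,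
        poly_of_NPf (fun S hS => h hS) (LPerm.inv_mem h1) h3⟩
    · have h1 := pspace_of_lin_sub_P fun S hS => h hS
      rw [show Cl.p.grp = SPerm from (SPerm_eq h1).symm]
      exact DPerm_le_SPerm
    · exact (SPerm_eq fun S hS => h hS).le
  · intro g hg
    exact ⟨c.big.le hg, (h (graph_mem_lang hg)).1⟩
  · intro g hg
    exact ⟨c.big.le hg, h (graph_mem_lang hg)⟩
  · exact c.grp_le_SPerm

theorem grp_le_iff {c d : Cl} : c.grp ≤ d.grp ↔ c.lang ⊆ d.lang :=
  ⟨Cl.lang_sub, grp_le⟩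

/-! ### Linear space differs from the other classes -/

theorem lang_dlba_ne {c : Cl} (hc : c ≠ .dlba) : c.lang ≠ Cl.dlba.lang := by
  intro h
  apply not_pspace_sub_lin
  intro S hS
  have hsub : ∀ S, S ∈ c.lang → InLinSpace S := fun S hS => by rw [h] at hS; exact hS
  have hsup : ∀ S, InLinSpace S → S ∈ c.lang := fun S hS => by rw [h]; exact hS
  apply hsub
  cases c
  · exact pspace_of_lin_sub_P hsup S hS
  · have h1 := pspace_of_lin_sub_NP fun S hS => (hsup S hS).1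
    exact ⟨h1 S hS, h1 _ (inPSPACE_compl hS)⟩
  · exact absurd rfl hc
  · exact hS

theorem no_iso {c : Cl} (hc : c ≠ .dlba) : IsEmpty (DPerm ≃* c.grp) := by
  refine ⟨fun Φ => lang_dlba_ne hc ?_⟩
  have h := eq_of_iso (c := .dlba) (d := c) ⟨Φ⟩
  exact (Set.Subset.antisymm (Cl.lang_sub h.le) (Cl.lang_sub h.ge)).symm

theorem tfae_cl (c d : Cl) :
    List.TFAE [c.lang = d.lang, c.grp = d.grp, Nonempty (c.grp ≃* d.grp)] := by
  tfae_have 1 → 2 := fun h => le_antisymm (grp_le h.le) (grp_le h.ge)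
  tfae_have 2 → 3 := fun h => ⟨MulEquiv.subgroupCongr h⟩
  tfae_have 3 → 1 := fun h => by
    have h1 := eq_of_iso h
    exact Set.Subset.antisymm (Cl.lang_sub h1.le) (Cl.lang_sub h1.ge)
  tfae_finish

/-! ### Embeddings -/

theorem exists_emb (c d : Cl) : ∃ f : c.grp →* d.grp, Function.Injective f := by
  have hP : ∃ f : SPerm →* PPerm, Function.Injective f := ⟨embHom, embHom_injective⟩
  have hd : ∃ f : SPerm →* d.grp, Function.Injective f := by
    cases d
    · exact hP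
    · obtain ⟨f, hf⟩ := hP
      exact ⟨(Subgroup.inclusion PPerm_le_NPerm).comp f,
        (Subgroup.inclusion_injective PPerm_le_NPerm).comp hf⟩
    · exact ⟨embD, embD_injective⟩
    · exact ⟨MonoidHom.id _, Function.injective_id⟩
  obtain ⟨f, hf⟩ := hd
  exact ⟨f.comp (Subgroup.inclusion c.grp_le_SPerm),
    hf.comp (Subgroup.inclusion_injective c.grp_le_SPerm)⟩

/-! ### Conjugacy -/

theorem pspace_of_conj_NP (h : ∀ g ∈ PPerm, ∃ h ∈ NPerm, h * g * h⁻¹ = g⁻¹) {S : Set (List Bool)}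
    (hS : InPSPACE S) : InNP S ∧ InNP Sᶜ := by
  classical
  obtain ⟨g, hg, h1⟩ := exists_conj_hard hS
  obtain ⟨k, hk, e⟩ := h g hg
  have hk' := mem_NPerm.1 hk
  exact npf_iff.1 (h1 _ FC_np k hk'.1 hk'.2.1 e)

theorem pspace_of_conj_P (h : ∀ g ∈ PPerm, ∃ h ∈ PPerm, h * g * h⁻¹ = g⁻¹) {S : Set (List Bool)}
    (hS : InPSPACE S) : InP S := by
  classical
  obtain ⟨g, hg, h1⟩ := exists_conj_hard hS
  obtain ⟨k, hk, e⟩ := h g hg
  have hk' := mem_PPerm.1 hk
  exact inP_iff.2 (h1 _ FC_poly k hk'.1 hk'.2.1 e)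

end Pool.Agent.V7H56.LS
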