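import Pool.Agent.V7H56.RG.Main

/-!
# Functions computable in `NP ∩ coNP`
-/

set_option autoImplicit false

namespace Pool.Agent.V7H56.LS

open Pool.Agent.NPC Pool.Agent.NPC.PIso Pool.Agent.V7H56.PP Pool.Agent.V7H56.RG Equiv

/-- The functions whose values are certified: given a certificate (a tree) the verifier returns the
value or nothing. -/
def NPf {α β : Type} [TEnc α] [TEnc β] (f : α → β) : Prop :=
  ∃ (V : α × T → Option β) (p : Polynomial ℕ), Poly V ∧ (∀ a c b, V (a, c) = some b → b = f a) ∧
    ∀ a, ∃ c : T, sz c ≤ p.eval (sz a) ∧ V (a, c) = some (f a)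

section

variable {α β γ : Type} [TEnc α] [TEnc β] [TEnc γ]

theorem sz_node (c d : T) : sz (T.node c d) = sz c + sz d + 1 := sz_pair c d

theorem T.hd_node (c d : T) : (T.node c d).hd = c := rfl
theorem T.tl_node (c d : T) : (T.node c d).tl = d := rfl

theorem NPf.of_poly {f : α → β} (hf : Poly f) : NPf f :=
  ⟨fun p => some (f p.1), 1, Poly.some (hf.comp (Poly.fst Poly.id)),
    fun a c b h => (Option.some.inj h).symm, fun a => ⟨T.nil, by
      rw [Polynomial.eval_one]; rfl, rfl⟩⟩

theorem NPf.sz_le {f : α → β} (hf : NPf f) : ∃ q : Polynomial ℕ, ∀ a, sz (f a) ≤ q.eval (sz a) := by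
  obtain ⟨V, p, hV, h1, h2⟩ := hf
  obtain ⟨q, hq⟩ := hV.sz_le
  refine ⟨q.comp (Polynomial.X + p + 1), fun a => ?_⟩
  obtain ⟨c, hc, he⟩ := h2 a
  have h3 := hq (a, c)
  rw [he, sz_pair] at h3
  have h4 : sz (f a) ≤ sz (some (f a)) := by rw [sz_some]; omega
  refine h4.trans (h3.trans ?_)
  rw [Polynomial.eval_comp]
  refine eval_mono q ?_
  simp only [Polynomial.eval_add, Polynomial.eval_X, Polynomial.eval_one]
  omega

theorem NPf.comp {g : β → γ} {f : α → β} (hg : NPf g) (hf : NPf f) : NPf (fun a => g (f a)) := by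
  obtain ⟨qf, hqf⟩ := hf.sz_le
  obtain ⟨V, p, hV, h1, h2⟩ := hf
  obtain ⟨V', p', hV', h1', h2'⟩ := hg
  refine ⟨fun x => (V (x.1, x.2.hd)).bind fun b => V' (b, x.2.tl), p + p'.comp qf + 1, ?_, ?_, ?_⟩
  · refine Poly.optBind (f := fun (x : α × T) (b : β) => V' (b, x.2.tl))
      (hV.comp (Poly.pair (Poly.fst Poly.id) (Poly.hd (Poly.snd Poly.id)))) ?_
    exact hV'.comp (Poly.pair (Poly.snd Poly.id) (Poly.tl (Poly.snd (Poly.fst Poly.id))))
  · intro a c b h
    obtain ⟨b', hb', h3⟩ := Option.bind_eq_some_iff.1 h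
    rw [h1' _ _ _ h3, h1 _ _ _ hb']
  · intro a
    obtain ⟨c, hc, e⟩ := h2 a
    obtain ⟨c', hc', e'⟩ := h2' (f a)
    refine ⟨T.node c c', ?_, ?_⟩
    · rw [sz_node]
      have h3 : p'.eval (sz (f a)) ≤ p'.eval (qf.eval (sz a)) := eval_mono p' (hqf a)
      simp only [Polynomial.eval_add, Polynomial.eval_comp, Polynomial.eval_one]
      omega
    · simp only [T.hd_node, T.tl_node, e, Option.bind_some, e']

theorem NPf.pair {f : α → β} {g : α → γ} (hf : NPf f) (hg : NPf g) : NPf (fun a => (f a, g a)) := by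
  obtain ⟨V, p, hV, h1, h2⟩ := hf
  obtain ⟨V', p', hV', h1', h2'⟩ := hg
  refine ⟨fun x => (V (x.1, x.2.hd)).bind fun b => (V' (x.1, x.2.tl)).bind fun c => some (b, c),
    p + p' + 1, ?_, ?_, ?_⟩
  · refine Poly.optBind (f := fun (x : α × T) (b : β) =>
      (V' (x.1, x.2.tl)).bind fun c => some (b, c))
      (hV.comp (Poly.pair (Poly.fst Poly.id) (Poly.hd (Poly.snd Poly.id)))) ?_
    refine Poly.optBind (f := fun (x : (α × T) × β) (c : γ) => some (x.2, c))
      (hV'.comp (Poly.pair (Poly.fst (Poly.fst Poly.id)) (Poly.tl (Poly.snd (Poly.fst Poly.id)))))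
      (Poly.some (Poly.pair (Poly.snd (Poly.fst Poly.id)) (Poly.snd Poly.id)))
  · intro a c b h
    obtain ⟨b', hb', h3⟩ := Option.bind_eq_some_iff.1 h
    obtain ⟨c', hc', h4⟩ := Option.bind_eq_some_iff.1 h3
    rw [← Option.some.inj h4, h1' _ _ _ hc', h1 _ _ _ hb']
  · intro a
    obtain ⟨c, hc, e⟩ := h2 a
    obtain ⟨c', hc', e'⟩ := h2' a
    refine ⟨T.node c c', ?_, ?_⟩
    · rw [sz_node]
      simp only [Polynomial.eval_add, Polynomial.eval_one]
      omega
    · simp only [T.hd_node, T.tl_node, e, Option.bind_some, e']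

/-- one step of a certified iteration -/
def nst (V : β × T → Option β) (s : Option β × List T) : Option β × List T :=
  (s.1.bind fun b => s.2.head?.bind fun c => V (b, c), s.2.tail)

theorem NPf.iter {n : α → ℕ} {s : α → β} {G : β → β} (hn : UPoly n) (hs : NPf s) (hG : NPf G)
    (q : Polynomial ℕ) (hq : ∀ a, ∀ i ≤ n a, sz (G^[i] (s a)) ≤ q.eval (sz a)) :
    NPf (fun a => G^[n a] (s a)) := by
  obtain ⟨V, p, hV, h1, h2⟩ := hs
  obtain ⟨V', p', hV', h1', h2'⟩ := hG
  obtain ⟨rn, hrn⟩ := hn.toPoly.sz_le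
  have hV0 : Poly (fun x : α × T => V (x.1, x.2.hd)) :=
    hV.comp (Poly.pair (Poly.fst Poly.id) (Poly.hd (Poly.snd Poly.id)))
  have hnst : Poly (nst V') := by
    refine Poly.pair ?_ (Poly.tail (Poly.snd Poly.id))
    refine Poly.optBind (f := fun (s : Option β × List T) (b : β) =>
      s.2.head?.bind fun c => V' (b, c)) (Poly.fst Poly.id) ?_
    refine Poly.optBind (f := fun (x : (Option β × List T) × β) (c : T) => V' (x.2, c))
      (Poly.head? (Poly.snd (Poly.fst Poly.id)))
      (hV'.comp (Poly.pair (Poly.snd (Poly.fst Poly.id)) (Poly.snd Poly.id)))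
  -- soundness of the iteration
  have snd : ∀ (a : α) (c : T) (i : ℕ),
      (∀ b, ((nst V')^[i] (V (a, c.hd), c.tl.toList)).1 = some b → b = G^[i] (s a)) ∧
      sz ((nst V')^[i] (V (a, c.hd), c.tl.toList)).2 ≤ sz c.tl.toList := by
    intro a c i
    induction i with
    | zero => exact ⟨fun b hb => h1 _ _ _ hb, le_rfl⟩
    | succ i ih =>
      rw [Function.iterate_succ_apply', Function.iterate_succ_apply']
      generalize (nst V')^[i] (V (a, c.hd), c.tl.toList) = t at ih ⊢
      refine ⟨fun b hb => ?_, ?_⟩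
      · obtain ⟨b', hb', h3⟩ := Option.bind_eq_some_iff.1 hb
        obtain ⟨c', hc', h4⟩ := Option.bind_eq_some_iff.1 h3
        rw [h1' _ _ _ h4, ih.1 _ hb']
      · refine le_trans ?_ ih.2
        have := Poly.sz_drop_le t.2 1
        rwa [List.drop_one] at this
  -- completeness
  have cmp : ∀ (k : ℕ) (b : β), ∃ l : List T, l.length = k ∧
      (∀ B, (∀ i ≤ k, sz (G^[i] b) ≤ B) → ∀ c ∈ l, sz c ≤ p'.eval B) ∧
      ((nst V')^[k] (some b, l)).1 = some (G^[k] b) := by
    intro k
    induction k with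
    | zero => intro b; exact ⟨[], rfl, by simp, rfl⟩
    | succ k ih =>
      intro b
      obtain ⟨l, hl, hb, hi⟩ := ih (G b)
      obtain ⟨c, hc, e⟩ := h2' b
      refine ⟨c :: l, by rw [List.length_cons, hl], ?_, ?_⟩
      · intro B hB c' hc'
        rcases List.mem_cons.1 hc' with rfl | h3
        · exact hc.trans (eval_mono p' (hB 0 (by omega)))
        · exact hb B (fun i hi => hB (i + 1) (by omega)) c' h3
      · rw [Function.iterate_succ_apply, Function.iterate_succ_apply]
        have e3 : nst V' (some b, c :: l) = (some (G b), l) := by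
          simp only [nst, Option.bind_some, List.head?_cons, e, List.tail_cons]
        rw [e3, hi]
  have hit : Poly (fun x : α × T => (nst V')^[n x.1] (V (x.1, x.2.hd), x.2.tl.toList)) := by
    obtain ⟨r, hr⟩ := hV0.sz_le
    obtain ⟨r2, hr2⟩ := (Poly.treeList (Poly.tl (Poly.snd (Poly.id (α := α × T))))).sz_le
    refine poly_uiter (n := fun x : α × T => n x.1)
      (s := fun x : α × T => (V (x.1, x.2.hd), x.2.tl.toList)) (G := fun _ => nst V')
      (hn.comp (Poly.fst Poly.id)) (Poly.pair hV0 (Poly.treeList (Poly.tl (Poly.snd Poly.id))))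
      (hnst.comp (Poly.snd Poly.id)) (q + r2 + 5) fun x i hi => ?_
    obtain ⟨h3, h4⟩ := snd x.1 x.2 i
    have h5 : sz ((nst V')^[i] (V (x.1, x.2.hd), x.2.tl.toList)).1 ≤ q.eval (sz x) + 3 := by
      rcases h6 : ((nst V')^[i] (V (x.1, x.2.hd), x.2.tl.toList)).1 with _ | b
      · have : sz (none : Option β) = 1 := rfl
        omega
      · rw [sz_some, h3 b h6]
        have h7 := hq x.1 i hi
        have h8 : q.eval (sz x.1) ≤ q.eval (sz x) := eval_mono q (by
          obtain ⟨a, c⟩ := x
          rw [sz_pair]; simp only; omega)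
        omega
    have h6 := hr2 x
    have h7 : sz ((nst V')^[i] (V (x.1, x.2.hd), x.2.tl.toList)) =
        sz ((nst V')^[i] (V (x.1, x.2.hd), x.2.tl.toList)).1 +
        sz ((nst V')^[i] (V (x.1, x.2.hd), x.2.tl.toList)).2 + 1 := sz_pair _ _
    simp only [Polynomial.eval_add, Polynomial.eval_ofNat]
    omega
  obtain ⟨pn, hpn⟩ : ∃ pn : Polynomial ℕ, ∀ a, n a ≤ pn.eval (sz a) := by
    obtain ⟨pn, hpn⟩ := hn.range.sz_le
    refine ⟨pn, fun a => ?_⟩
    have h3 := length_lt_sz (List.range (n a))
    rw [List.length_range] at h3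
    exact h3.le.trans (hpn a)
  refine ⟨fun x => ((nst V')^[n x.1] (V (x.1, x.2.hd), x.2.tl.toList)).1,
    p + pn * (p'.comp q + 1) + 2, Poly.fst hit, fun a c b h => (snd a c (n a)).1 b h, fun a => ?_⟩
  obtain ⟨c, hc, e⟩ := h2 a
  obtain ⟨l, hl, hb, hi⟩ := cmp (n a) (s a)
  refine ⟨T.node c (T.ofList l), ?_, ?_⟩
  · rw [sz_node]
    have h3 := sz_le_length_mul l (p'.eval (q.eval (sz a))) (hb _ (hq a))
    have h4 : sz (T.ofList l) = sz l := by
      have h5 : l.map (toT : T → T) = l := List.map_id l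
      change (T.ofList l).enc.length = (T.ofList (l.map toT)).enc.length
      rw [h5]
    rw [h4]
    simp only [Polynomial.eval_add, Polynomial.eval_mul, Polynomial.eval_comp,
      Polynomial.eval_one, Polynomial.eval_ofNat]
    have h5 := hpn a
    rw [hl] at h3
    have h6 : n a * (p'.eval (q.eval (sz a)) + 1) ≤ pn.eval (sz a) * (p'.eval (q.eval (sz a)) + 1) :=
      Nat.mul_le_mul_right _ h5
    omega
  · simp only [T.hd_node, T.tl_node, e, T.toList_ofList, hi]

theorem FC_np : FC (fun α β [TEnc α] [TEnc β] (f : α → β) => NPf f) where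
  of_poly h := NPf.of_poly h
  comp h h' := h.comp h'
  pair h h' := NPf.pair h h'
  iter hn hs hG q hq := NPf.iter hn hs hG q hq

end

/-! ### Relation to `NP` -/

/-- a string from a tree -/
def decB (t : T) : List Bool := t.toList.map fun u => decide (u ≠ T.nil)

theorem decB_toT (w : List Bool) : decB (toT w) = w := by
  have h1 : (toT w : T) = T.ofList (w.map toT) := rfl
  unfold decB
  rw [h1, T.toList_ofList, List.map_map]
  conv_rhs => rw [← List.map_id w]
  refine List.map_congr_left fun b _ => ?_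
  cases b
  · rfl
  · rfl

theorem poly_decB {α : Type} [TEnc α] {t : α → T} (ht : Poly t) : Poly (fun a => decB (t a)) :=
  NPC.Poly.map (F := fun (_ : α) (u : T) => decide (u ≠ T.nil)) (Poly.treeList ht)
    (Poly.decide_not (Poly.decide_eq (Poly.snd Poly.id) (NPC.Poly.const T.nil)))

theorem length_decB_le (t : T) : (decB t).length ≤ sz t := by
  unfold decB
  rw [List.length_map]
  have h := length_lt_sz t.toList
  have h2 : sz t.toList = sz t := by
    change (toT t.toList).enc.length = _
    rw [toT_toList]; rfl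
  omega

/-- The tree of a certificate. -/
def prs (w : List Bool) : T := (parse w).getD T.nil

theorem prs_enc (t : T) : prs t.enc = t := by
  unfold prs
  rw [parse_enc]; rfl

theorem poly_prs {α : Type} [TEnc α] {w : α → List Bool} (hw : Poly w) :
    Poly (fun a => prs (w a)) := by
  refine (Poly.optCases (o := fun a => parse (w a)) (g := fun _ => T.nil) (h := fun _ t => t)
    (poly_parse.comp hw) (NPC.Poly.const _) (Poly.snd Poly.id)).congr fun a => ?_
  unfold prs
  cases parse (w a) <;> rfl

theorem inNP_iff {S : Set (List Bool)} : InNP S ↔ ∃ (V : List Bool × List Bool → Bool)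
    (p : Polynomial ℕ), Poly V ∧ (∀ x w, V (x, w) = true → x ∈ S) ∧
      ∀ x ∈ S, ∃ w : List Bool, w.length ≤ p.eval x.length ∧ V (x, w) = true := by
  constructor
  · rintro ⟨V, p, hV, h⟩
    refine ⟨fun q => decide (q.2.length ≤ p.eval q.1.length) &&
      decide (V (pairBits q.1 q.2) = [true]), p, ?_, fun x w hw => ?_, fun x hx => ?_⟩
    · exact Poly.and (Poly.decide_le (Poly.length (Poly.snd Poly.id))
        (UPoly.toPoly (UPoly.eval (UPoly.length (Poly.fst Poly.id)) p)))
        (Poly.decide_eq ((poly_iff.2 hV).comp (poly_pairBits (Poly.fst Poly.id)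
          (Poly.snd Poly.id))) (NPC.Poly.const [true]))
    · rw [Bool.and_eq_true, decide_eq_true_iff, decide_eq_true_iff] at hw
      exact (h x).2 ⟨w, hw⟩
    · obtain ⟨w, h1, h2⟩ := (h x).1 hx
      refine ⟨w, h1, ?_⟩
      rw [Bool.and_eq_true, decide_eq_true_iff, decide_eq_true_iff]
      exact ⟨h1, h2⟩
  · rintro ⟨V, p, hV, h1, h2⟩
    refine ⟨fun y => [V (unpair y)], p, polyTime_of_poly (hV.comp poly_unpair), fun x => ?_⟩
    simp only [unpair_pairBits, List.cons.injEq, and_true]
    exact ⟨h2 x, fun ⟨w, _, hw⟩ => h1 x w hw⟩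

theorem _root_.Pool.Agent.NPC.InNP.of_reduction {S S' : Set (List Bool)}
    {f : List Bool → List Bool} (hf : Poly f) (h : ∀ x, x ∈ S ↔ f x ∈ S') (h' : InNP S') :
    InNP S := by
  obtain ⟨V, p, hV, h1, h2⟩ := inNP_iff.1 h'
  obtain ⟨q, hq⟩ := hf.sz_le
  refine inNP_iff.2 ⟨fun y => V (f y.1, y.2), p.comp (q.comp (4 * Polynomial.X + 1)),
    hV.comp (Poly.pair (hf.comp (Poly.fst Poly.id)) (Poly.snd Poly.id)),
    fun x w hw => (h x).2 (h1 _ _ hw), fun x hx => ?_⟩
  obtain ⟨w, hw, e⟩ := h2 _ ((h x).1 hx)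
  refine ⟨w, hw.trans ?_, e⟩
  rw [Polynomial.eval_comp]
  refine eval_mono p ((length_lt_sz (f x)).le.trans ((hq x).trans ?_))
  rw [Polynomial.eval_comp]
  refine eval_mono q ?_
  simpa using sz_listBool_le x

theorem _root_.Pool.Agent.NPC.InNP.of_NPf {S : Set (List Bool)} {f : List Bool → Bool}
    (hf : NPf f) (h : ∀ x, x ∈ S ↔ f x = true) : InNP S := by
  obtain ⟨V, p, hV, h1, h2⟩ := hf
  refine inNP_iff.2 ⟨fun q => decide (V (q.1, prs q.2) = some true), p.comp (4 * Polynomial.X + 1),
    Poly.decide_eq (hV.comp (Poly.pair (Poly.fst Poly.id) (poly_prs (Poly.snd Poly.id))))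
      (NPC.Poly.const _), fun x w hw => ?_, fun x hx => ?_⟩
  · rw [decide_eq_true_iff] at hw
    exact (h x).2 (h1 _ _ _ hw).symm
  · obtain ⟨c, hc, e⟩ := h2 x
    refine ⟨c.enc, ?_, ?_⟩
    · refine (show c.enc.length ≤ _ from hc).trans ?_
      rw [Polynomial.eval_comp]
      refine eval_mono p ?_
      simpa using sz_listBool_le x
    · rw [decide_eq_true_iff, prs_enc, e, (h x).1 hx]

theorem sz_le_of_len {w : List Bool} {n : ℕ} (h : w.length ≤ n) : sz w ≤ 4 * n + 1 := by
  have := sz_listBool_le w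
  omega

open Classical in
theorem NPf.of_inNP {S : Set (List Bool)} (h1 : InNP S) (h2 : InNP Sᶜ) :
    NPf fun x => decide (x ∈ S) := by
  obtain ⟨V, p, hV, k1, k2⟩ := inNP_iff.1 h1
  obtain ⟨V', p', hV', k1', k2'⟩ := inNP_iff.1 h2
  have hd : Poly (fun q : List Bool × T => (q.1, decB q.2)) :=
    Poly.pair (Poly.fst Poly.id) (poly_decB (Poly.snd Poly.id))
  refine ⟨fun q => bif V (q.1, decB q.2) then some true else
    bif V' (q.1, decB q.2) then some false else none, 4 * (p + p') + 1, ?_, ?_, ?_⟩
  · exact Poly.cond (hV.comp hd) (NPC.Poly.const _) (Poly.cond (hV'.comp hd) (NPC.Poly.const _)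
      (NPC.Poly.const _))
  · intro x c b hb
    simp only at hb
    cases e1 : V (x, decB c)
    · rw [e1, cond_false] at hb
      cases e2 : V' (x, decB c)
      · rw [e2, cond_false] at hb
        cases hb
      · rw [e2, cond_true] at hb
        rw [← Option.some.inj hb, eq_comm, decide_eq_false_iff_not]
        exact k1' _ _ e2
    · rw [e1, cond_true] at hb
      rw [← Option.some.inj hb, eq_comm, decide_eq_true_iff]
      exact k1 _ _ e1
  · intro x
    have hle := (length_lt_sz x).le
    have e3 := eval_mono p hle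
    have e4 := eval_mono p' hle
    by_cases hx : x ∈ S
    · obtain ⟨w, hw, e⟩ := k2 x hx
      refine ⟨toT w, ?_, ?_⟩
      · refine (sz_le_of_len hw).trans ?_
        simp only [Polynomial.eval_add, Polynomial.eval_mul, Polynomial.eval_one,
          Polynomial.eval_ofNat]
        omega
      · simp only [decB_toT, e, cond_true, decide_eq_true hx]
    · obtain ⟨w, hw, e⟩ := k2' x hx
      refine ⟨toT w, ?_, ?_⟩
      · refine (sz_le_of_len hw).trans ?_
        simp only [Polynomial.eval_add, Polynomial.eval_mul, Polynomial.eval_one,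
          Polynomial.eval_ofNat]
        omega
      · have e5 : V (x, w) = false := by
          rw [← Bool.not_eq_true]
          exact fun h => hx (k1 _ _ h)
        simp only [decB_toT, e, e5, cond_true, cond_false, decide_eq_false hx]

/-! ### Permutations -/

theorem npf_of_graph {g : List Bool → List Bool} (hl : ∀ w, (g w).length = w.length)
    (h : InNP (graph g)) : NPf g := by
  obtain ⟨V, p, hV, k1, k2⟩ := inNP_iff.1 h
  refine ⟨fun q => bif V (pairBits q.1 (decB q.2.hd), decB q.2.tl) then some (decB q.2.hd)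
    else none, 4 * (p.comp (3 * Polynomial.X + 1)) + 1 + (4 * Polynomial.X + 1) + 1, ?_, ?_, ?_⟩
  · have h1 : Poly (fun q : List Bool × T => decB q.2.hd) :=
      poly_decB (Poly.hd (Poly.snd Poly.id))
    have h2 : Poly (fun q : List Bool × T => decB q.2.tl) :=
      poly_decB (Poly.tl (Poly.snd Poly.id))
    exact Poly.cond (hV.comp (Poly.pair (poly_pairBits (Poly.fst Poly.id) h1) h2)) (Poly.some h1)
      (NPC.Poly.const _)
  · intro x c b hb
    simp only at hb
    cases e1 : V (pairBits x (decB c.hd), decB c.tl)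
    · rw [e1, cond_false] at hb
      cases hb
    · rw [e1, cond_true] at hb
      obtain ⟨x', hx'⟩ := k1 _ _ e1
      have h3 := congrArg unpair hx'
      rw [unpair_pairBits, unpair_pairBits, Prod.mk.injEq] at h3
      rw [← Option.some.inj hb, h3.2, h3.1]
  · intro x
    obtain ⟨w, hw, e⟩ := k2 (pairBits x (g x)) ⟨x, rfl⟩
    refine ⟨T.node (toT (g x)) (toT w), ?_, ?_⟩
    · rw [sz_node]
      have h1 : sz (toT (g x)) = sz (g x) := rfl
      have h2 : sz (toT w) = sz w := rfl
      have h3 : (pairBits x (g x)).length ≤ 3 * sz x + 1 := by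
        have h4 : (pairBits x (g x)).length = 2 * x.length + 1 + (g x).length := by
          unfold pairBits
          rw [List.length_append, List.length_flatMap]
          have : (x.map fun b => [true, b].length).sum = 2 * x.length := by
            clear e hw h1
            induction x with
            | nil => rfl
            | cons a x ih => rw [List.map_cons, List.sum_cons, ih, List.length_cons]; simp; ring
          rw [this, List.length_cons]
          omega
        have := length_lt_sz x
        rw [h4, hl]; omega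
      have h4 := sz_le_of_len (hw.trans (eval_mono p h3))
      have h5 : sz (g x) ≤ 4 * sz x + 1 := sz_le_of_len (by
        rw [hl]; exact (length_lt_sz x).le)
      simp only [Polynomial.eval_add, Polynomial.eval_mul, Polynomial.eval_comp,
        Polynomial.eval_X, Polynomial.eval_one, Polynomial.eval_ofNat]
      rw [h1, h2]
      omega
    · simp only [T.hd_node, T.tl_node, decB_toT, e, cond_true]

theorem inNP_graph {g : List Bool → List Bool} (h : NPf g) : InNP (graph g) := by
  have h1 : NPf (fun w : List Bool => decide (pairBits (unpair w).1 (g (unpair w).1) = w)) := by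
    have h2 : NPf (fun w : List Bool => g (unpair w).1) :=
      h.comp (NPf.of_poly (Poly.fst poly_unpair))
    exact NPf.comp (g := fun q : List Bool × List Bool =>
      decide (pairBits (unpair q.1).1 q.2 = q.1)) (NPf.of_poly (Poly.decide_eq
        (poly_pairBits (Poly.fst (poly_unpair.comp (Poly.fst Poly.id))) (Poly.snd Poly.id))
        (Poly.fst Poly.id))) (NPf.pair (NPf.of_poly Poly.id) h2)
  refine InNP.of_NPf h1 fun w => ?_
  rw [decide_eq_true_iff]
  constructor
  · rintro ⟨x, rfl⟩
    rw [unpair_pairBits]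
  · intro h; exact ⟨_, h.symm⟩

theorem NPf.inv {g : Perm (List Bool)} (hL : g ∈ LPerm) (hg : NPf g) : NPf g.symm := by
  obtain ⟨V, p, hV, h1, h2⟩ := hg
  refine ⟨fun q => bif decide (V (decB q.2.hd, q.2.tl) = some q.1) then some (decB q.2.hd)
    else none, (4 * Polynomial.X + 1) + p.comp (4 * Polynomial.X + 1) + 1, ?_, ?_, ?_⟩
  · have h3 : Poly (fun q : List Bool × T => decB q.2.hd) :=
      poly_decB (Poly.hd (Poly.snd Poly.id))
    exact Poly.cond (Poly.decide_eq (hV.comp (Poly.pair h3 (Poly.tl (Poly.snd Poly.id))))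
      (Poly.some (Poly.fst Poly.id))) (Poly.some h3) (NPC.Poly.const _)
  · intro y c b hb
    simp only at hb
    by_cases e1 : V (decB c.hd, c.tl) = some y
    · rw [decide_eq_true e1, cond_true] at hb
      rw [← Option.some.inj hb, Equiv.eq_symm_apply]
      exact (h1 _ _ _ e1).symm
    · rw [decide_eq_false e1, cond_false] at hb
      cases hb
  · intro y
    obtain ⟨c, hc, e⟩ := h2 (g.symm y)
    refine ⟨T.node (toT (g.symm y)) c, ?_, ?_⟩
    · rw [sz_node]
      have h3 : sz (toT (g.symm y)) = sz (g.symm y) := rfl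
      have h4 : (g.symm y).length = y.length := by
        have := hL (g.symm y)
        rw [g.apply_symm_apply] at this
        exact this.symm
      have h5 : sz (g.symm y) ≤ 4 * sz y + 1 := sz_le_of_len (by
        rw [h4]; exact (length_lt_sz y).le)
      have h6 := hc.trans (eval_mono p h5)
      simp only [Polynomial.eval_add, Polynomial.eval_mul, Polynomial.eval_comp,
        Polynomial.eval_X, Polynomial.eval_one, Polynomial.eval_ofNat]
      rw [h3]
      omega
    · simp only [T.hd_node, T.tl_node, decB_toT, e, g.apply_symm_apply, decide_true, cond_true]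

end Pool.Agent.V7H56.LS
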