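import Pool.Agent.V7H56.LS.Main

/-!
# Recognition of the group of linear-space permutations
-/

set_option autoImplicit false

namespace Pool.Agent.V7H56.LS

open Pool.Agent.NPC Pool.Agent.NPC.PIso Pool.Agent.V7H56.PP Pool.Agent.V7H56.RG Equiv Finset
open Pool.Agent.V7H59.CT (L InLinSpace num num_pos num_size sz_eq powT powT_eq)

/-- Recognition, for groups with a closure property. -/
theorem recogL {K : Subgroup (Perm (List Bool))} (hK : Big K)
    (hcl : ∀ θ ∈ LPerm, (∀ x : List Bool, x.length < 3 → θ x = x) → ∀ r ∈ K, ∀ t ∈ K, ∀ m ∈ K,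
      (∀ x : List Bool, 3 ≤ x.length → θ (rot x) = r (θ x)) →
      (∀ x : List Bool, 3 ≤ x.length → θ (flp x) = t (θ x)) →
      (∀ x : List Bool, 3 ≤ x.length → θ (cnot x) = m (θ x)) → θ ∈ K)
    {G : Subgroup (Perm (List Bool))} (hG : Big G) (h1 : rotP ∈ G) (h2 : flpP ∈ G)
    (h3 : cnotP ∈ G) (Φ : G ≃* K) : G = K ∧ ∃ θ ∈ K, ∀ (g : G) (x : List Bool), 3 ≤ x.length →
      θ ((g : Perm (List Bool)) x) = (Φ g : Perm (List Bool)) (θ x) := by
  obtain ⟨θ, _, _, hL, h4, h5⟩ := recon hG hK Φ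
  have hθ : θ ∈ K := hcl θ hL h4 _ (Φ ⟨rotP, h1⟩).2 _ (Φ ⟨flpP, h2⟩).2 _ (Φ ⟨cnotP, h3⟩).2
    (h5 ⟨rotP, h1⟩) (h5 ⟨flpP, h2⟩) (h5 ⟨cnotP, h3⟩)
  refine ⟨?_, θ, hθ, h5⟩
  have hinv : ∀ x, θ (θ⁻¹ x) = x := θ.apply_symm_apply
  have hinv' : ∀ x, θ⁻¹ (θ x) = x := θ.symm_apply_apply
  apply le_antisymm
  · intro g hg
    have k1 : θ⁻¹ * (Φ ⟨g, hg⟩ : Perm (List Bool)) * θ ∈ K :=
      K.mul_mem (K.mul_mem (K.inv_mem hθ) (Φ _).2) hθ
    have k2 : (θ⁻¹ * (Φ ⟨g, hg⟩ : Perm (List Bool)) * θ)⁻¹ * g ∈ K := by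
      refine hK.fin' _ (LPerm.mul_mem (LPerm.inv_mem (hK.le k1)) (hG.le hg)) fun x hx => ?_
      rw [Perm.mul_apply, Perm.inv_eq_iff_eq, Perm.mul_apply, Perm.mul_apply]
      have := h5 ⟨g, hg⟩ x hx
      simp only at this
      rw [← this, hinv']
    have k3 := K.mul_mem k1 k2
    rwa [mul_inv_cancel_left] at k3
  · intro p hp
    have k1 : θ * p * θ⁻¹ ∈ K := K.mul_mem (K.mul_mem hθ hp) (K.inv_mem hθ)
    let g : G := Φ.symm ⟨_, k1⟩
    have k2 : (g : Perm (List Bool))⁻¹ * p ∈ G := by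
      refine hG.fin' _ (LPerm.mul_mem (LPerm.inv_mem (hG.le g.2)) (hK.le hp)) fun x hx => ?_
      rw [Perm.mul_apply, Perm.inv_eq_iff_eq]
      apply θ.injective
      rw [h5 g x hx]
      have e : Φ g = ⟨θ * p * θ⁻¹, k1⟩ := Φ.apply_symm_apply _
      rw [e]
      simp only [Perm.mul_apply, hinv']
    have k3 := G.mul_mem g.2 k2
    rwa [mul_inv_cancel_left] at k3

theorem rdS_iter (r m : List Bool → List Bool) (y acc : List Bool) (k : ℕ) :
    (rdS r m)^[k] (y, acc) = (r^[k] y,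
      acc ++ (List.range k).map fun i => !decide (m (r^[i] y) = r^[i] y)) := by
  induction k with
  | zero => simp
  | succ k ih =>
    rw [Function.iterate_succ_apply', ih]
    unfold rdS
    rw [List.range_succ, List.map_append, ← List.append_assoc, Function.iterate_succ_apply']
    rfl

theorem num_map_range (b : ℕ → Bool) (k : ℕ) :
    num ((List.range k).map b) = 2 ^ k + ∑ i ∈ range k, (b i).toNat * 2 ^ i := by
  induction k with
  | zero => simp [num]
  | succ k ih =>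
    have h1 := num_append ((List.range k).map b) [b k]
    have h2 : num [b k] = (b k).toNat + 2 := by rw [num_cons, num]; omega
    rw [h2, List.length_map, List.length_range, ih] at h1
    rw [List.range_succ, List.map_append, List.map_singleton, sum_range_succ, pow_succ]
    nlinarith

theorem dlin_theta {θ r m : Perm (List Bool)} (hθ : θ ∈ LPerm) (hr : r ∈ DPerm) (hm : m ∈ DPerm)
    (h1 : ∀ x : List Bool, 3 ≤ x.length → θ (rot x) = r (θ x))
    (h2 : ∀ x : List Bool, 3 ≤ x.length → θ (cnot x) = m (θ x)) : DLin θ.symm := by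
  have hli := li_of_mem (DPerm_le hr)
  obtain ⟨R, hR, hR'⟩ := (mem_DPerm.1 hr).2.app
  obtain ⟨M, hM, hM'⟩ := (mem_DPerm.1 hm).2.app
  let F : ℕ → ℕ := fun Y => powT 2 (V7H59.CT.sz Y - 1) Y +
    ∑ i ∈ range (V7H59.CT.sz Y - 1), (if M (pwN R i Y) = pwN R i Y then 0 else 1) * powT 2 i Y
  have hn : L (fun e : ℕ → ℕ => V7H59.CT.sz (e 0) - 1) := (L.sz (L.var 0)).sub (L.const 1)
  refine DLin.of_large (F := F) ?_ 3 fun y hy => ?_
  · refine (L.powT (L.const 2) hn (L.var 0)).add (L.sum (f := fun e i =>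
      (if M (pwN R i (e 0)) = pwN R i (e 0) then 0 else 1) * powT 2 i (e 0))
      (B := fun e => 1 * e 0) hn ?_ ((L.const 1).mul (L.var 0)) fun e i _ => ?_)
    · have hp : L (fun z : ℕ → ℕ => pwN R (z 0) (z 1)) := L_pwN hR (L.var 0) (L.var 1)
      exact (L.ite_eq (hM hp) hp L.zero (L.const 1)).mul
        (L.powT (L.const 2) (L.var 0) (L.var 1))
    · refine Nat.mul_le_mul ?_ (min_le_right _ _)
      split_ifs <;> omega
  · have hlen : (θ.symm y).length = y.length := by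
      have := hθ (θ.symm y)
      rw [θ.apply_symm_apply] at this
      exact this.symm
    have h3 := rd_iter θ.injective h1 h2 (θ.symm y) [] [] (by
      rw [List.append_nil, hlen]; exact hy)
    rw [List.append_nil, θ.apply_symm_apply, rdS_iter] at h3
    have h4 := congrArg Prod.snd h3
    simp only [List.nil_append] at h4
    rw [← h4, hlen, num_map_range]
    have hY := two_pow_le_num y
    simp only [F]
    rw [sz_eq, num_size, Nat.add_sub_cancel, powT_eq hY]
    congr 1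
    refine sum_congr rfl fun i hi => ?_
    rw [pwN_num hli hR', hM', powT_eq ((Nat.pow_le_pow_right (by norm_num)
      (mem_range.1 hi).le).trans hY)]
    congr 1
    by_cases h5 : m (r^[i] y) = r^[i] y
    · rw [h5]; simp
    · rw [if_neg (fun e => h5 (num_injective e)), decide_eq_false h5]; rfl

theorem recog_DPerm {G : Subgroup (Perm (List Bool))} (hG : Big G) (h1 : rotP ∈ G) (h2 : flpP ∈ G)
    (h3 : cnotP ∈ G) (Φ : G ≃* DPerm) : G = DPerm ∧ ∃ θ ∈ DPerm, ∀ (g : G) (x : List Bool),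
      3 ≤ x.length → θ ((g : Perm (List Bool)) x) = (Φ g : Perm (List Bool)) (θ x) := by
  refine recogL big_DPerm (fun θ hθ _ r hr t ht m hm k1 _ k3 => ?_) hG h1 h2 h3 Φ
  have h4 := dlin_theta hθ hr hm k1 k3
  have h5 : DLin (θ⁻¹ : Perm (List Bool)).symm := h4.inv (LPerm.inv_mem hθ)
  exact mem_DPerm.2 ⟨hθ, h5⟩

/-- Recognition of the four groups. -/
theorem recog_all (d : Cl) {G : Subgroup (Perm (List Bool))} (hG : Big G)
    (h1 : rotP ∈ G) (h2 : flpP ∈ G) (h3 : cnotP ∈ G) (Φ : G ≃* d.grp) : G = d.grp := by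
  by_cases hd : d = .dlba
  · subst hd
    exact (recog_DPerm hG h1 h2 h3 Φ).1
  · exact recog_cl hd hG h1 h2 h3 Φ

theorem three_mem {G : Subgroup (Perm (List Bool))} (h : Three G) :
    rotP ∈ G ∧ flpP ∈ G ∧ cnotP ∈ G := by
  obtain ⟨⟨a, ha, a1, a2⟩, ⟨b, hb, b1, b2⟩, ⟨c, hc, c1, c2, c3⟩⟩ := h
  refine ⟨?_, ?_, ?_⟩
  · have e : a = rotP := Equiv.ext fun w => by
      match w with
      | [] => exact a1
      | x :: l => exact a2 x l
    rw [← e]; exact ha
  · have e : b = flpP := Equiv.ext fun w => by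
      match w with
      | [] => exact b1
      | x :: l => exact b2 x l
    rw [← e]; exact hb
  · have e : c = cnotP := Equiv.ext fun w => by
      match w with
      | [] => exact c1
      | [x] => exact c2 x
      | x :: y :: l => exact c3 x y l
    rw [← e]; exact hc

theorem three_cl (c : Cl) : Three c.grp := by
  obtain ⟨h1, h2, h3⟩ := c.three
  exact ⟨⟨_, h1, rfl, fun _ _ => rfl⟩, ⟨_, h2, rfl, fun _ _ => rfl⟩,
    ⟨_, h3, rfl, fun _ => rfl, fun _ _ _ => rfl⟩⟩

/-- The inclusions in terms of the isomorphism types. -/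
theorem tfae_le (c d : Cl) : List.TFAE [c.lang ⊆ d.lang, c.grp ≤ d.grp,
    Nonempty (↥(c.grp ⊔ d.grp) ≃* d.grp)] := by
  tfae_have 1 ↔ 2 := grp_le_iff.symm
  tfae_have 2 → 3 := fun h => ⟨MulEquiv.subgroupCongr (sup_eq_right.2 h)⟩
  tfae_have 3 → 2 := fun ⟨Φ⟩ => by
    obtain ⟨d1, d2, d3⟩ := d.three
    have hle : d.grp ≤ c.grp ⊔ d.grp := le_sup_right
    have hB : Big (c.grp ⊔ d.grp) := ⟨sup_le c.big.le d.big.le, fun x y h => hle (d.big.sw x y h)⟩
    have h := recog_all d hB (hle d1) (hle d2) (hle d3) Φ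
    rw [← h]
    exact le_sup_left
  tfae_finish

end Pool.Agent.V7H56.LS
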