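import Pool.Agent.V7H56.LS.Uni
import Pool.Agent.H550R2.Iso.Space

/-!
# Simulation of machines by functions of the class `L`
-/

set_option autoImplicit false

namespace Pool.Agent.V7H56.LS

open Pool.Agent.H583R2 Pool.Agent.V7H59.CT Finset
open Pool.Agent.NPC.PIso (InPSPACE)
open Function (update)

/-- The universal simulation halts, with stacks of lengths at most `s`. -/
def Halts (cd : Code) (x : List Bool) (s : ℕ) : Prop :=
  ∃ m, cd.1.length ≤ (runU cd x m).1 ∧
    ∀ i ≤ m, ∀ k, ((runU cd x i).2.getD k []).length ≤ s

theorem runU_halted {cd : Code} {x : List Bool} {m t : ℕ} (h : cd.1.length ≤ (runU cd x m).1)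
    (ht : m ≤ t) : runU cd x t = runU cd x m := by
  obtain ⟨d, rfl⟩ := Nat.exists_eq_add_of_le ht
  induction d with
  | zero => rfl
  | succ d ih =>
    have e : runU cd x (m + (d + 1)) = stepU cd.1 (runU cd x (m + d)) :=
      Function.iterate_succ_apply' _ _ _
    rw [e, ih (by omega)]
    unfold stepU
    rw [List.getElem?_eq_none h]

section machine

open Turing Classical

attribute [local instance] FinTM2.kFin FinTM2.ΛFin FinTM2.σFin FinTM2.Γk₀Fin

variable (tm : FinTM2)

theorem encStk_len (stk : ∀ k, List (tm.Γ k)) {s : ℕ} (h : ∀ j, (stk j).length ≤ s) (k : ℕ) :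
    ((encStk tm stk).getD k []).length ≤ s := by
  rcases lt_or_ge k (nK tm) with h1 | h1
  · obtain ⟨k', rfl⟩ := exists_kNum tm h1
    rw [encStk_getD, encMap, List.length_map]
    exact h k'
  · rw [List.getD_eq_default _ _ (by rw [encStk_length]; exact h1)]
    simp

theorem encCfg_len {c : TM2.Cfg tm.Γ tm.Λ tm.σ} {s : ℕ} (h : ∀ j, (c.stk j).length ≤ s) (k : ℕ) :
    ((encCfg tm c).2.getD k []).length ≤ s := by
  obtain ⟨l, v, stk⟩ := c
  cases l
  · exact encStk_len tm stk h k
  · exact encStk_len tm stk h k

theorem iter_len (I : List Ins) (c : UCfg) (i k : ℕ) :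
    (((stepU I)^[i] c).2.getD k []).length ≤ (c.2.getD k []).length + i := by
  induction i with
  | zero => simp
  | succ i ih =>
    rw [Function.iterate_succ_apply']
    have := stepU_len I ((stepU I)^[i] c) k
    omega

theorem sim_space (s n : ℕ) : ∀ (c c' : TM2.Cfg tm.Γ tm.Λ tm.σ), GoodStk tm c.stk →
    (∀ (i : ℕ) (d : TM2.Cfg tm.Γ tm.Λ tm.σ), (flip bind (TM2.step tm.m))^[i] (some c) = some d →
      ∀ k, (d.stk k).length ≤ s) →
    (flip bind (TM2.step tm.m))^[n] (some c) = some c' → c'.l = none →
    ∃ m, (stepU (codeL tm))^[m] (encCfg tm c) = encCfg tm c' ∧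
      ∀ i ≤ m, ∀ k, (((stepU (codeL tm))^[i] (encCfg tm c)).2.getD k []).length ≤
        s + maxDep tm := by
  induction n with
  | zero =>
    intro c c' hg hr h hl
    have h' : c = c' := by simpa using h
    subst h'
    refine ⟨0, rfl, fun i hi k => ?_⟩
    obtain rfl : i = 0 := by omega
    exact (encCfg_len tm (hr 0 c rfl) k).trans (Nat.le_add_right _ _)
  | succ n ih =>
    intro c c' hg hr h hl
    obtain ⟨l, v, stk⟩ := c
    cases l with
    | none =>
      exfalso
      rw [Function.iterate_succ_apply] at h
      have h1 : flip bind (TM2.step tm.m) (some ⟨none, v, stk⟩) = none := rfl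
      rw [h1] at h
      have h2 : ∀ m : ℕ, (flip bind (TM2.step tm.m))^[m] none = none := by
        intro m
        induction m with
        | zero => rfl
        | succ m ihm => rw [Function.iterate_succ_apply']; rw [ihm]; rfl
      rw [h2] at h
      cases h
    | some l =>
      rw [Function.iterate_succ_apply] at h
      have h1 : flip bind (TM2.step tm.m) (some ⟨some l, v, stk⟩) =
        some (TM2.stepAux (tm.m l) v stk) := rfl
      rw [h1] at h
      obtain ⟨j, hj, h2, h3⟩ := sim_stmt tm (tm.m l) (sS_main tm l) v stk hg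
      have h4 : dep tm (tm.m l) ≤ maxDep tm :=
        Finset.le_sup (f := fun l : tm.Λ => dep tm (tm.m l)) (Finset.mem_univ l)
      obtain ⟨m, h5, h6⟩ := ih _ _ h3 (fun i d hd => hr (i + 1) d (by
        rw [Function.iterate_succ_apply, h1]; exact hd)) h hl
      refine ⟨m + j, ?_, ?_⟩
      · rw [Function.iterate_add_apply]
        change (stepU (codeL tm))^[m] ((stepU (codeL tm))^[j]
          (numSt tm (tm.m l, v), encStk tm stk)) = _
        rw [h2, h5]
      · intro i hi k
        rcases le_or_gt i j with hij | hij
        · have := iter_len (codeL tm) (encCfg tm ⟨some l, v, stk⟩) i k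
          have := encCfg_len tm (hr 0 _ rfl) k
          omega
        · obtain ⟨d, rfl⟩ := Nat.exists_eq_add_of_lt hij
          have e : (stepU (codeL tm))^[j + d + 1] (encCfg tm ⟨some l, v, stk⟩) =
              (stepU (codeL tm))^[d + 1] (encCfg tm (TM2.stepAux (tm.m l) v stk)) := by
            rw [show j + d + 1 = (d + 1) + j by omega, Function.iterate_add_apply]
            congr 1
          rw [e]
          exact h6 (d + 1) (by omega) k

variable {tm}

theorem init_eq (ein : tm.Γ tm.k₀ ≃ Bool) (eout : tm.Γ tm.k₁ ≃ Bool) (x : List Bool) :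
    initU (codeOf ein eout) x = encCfg tm (initList tm (x.map ein.invFun)) := by
  have h3 : (initList tm (x.map ein.invFun)).stk =
      Function.update (fun _ => []) tm.k₀ (x.map ein.invFun) := by
    funext k
    by_cases hk : k = tm.k₀
    · subst hk
      rw [Function.update_self]
      simp [initList]
    · rw [Function.update_of_ne hk]
      simp only [initList]
      rw [dif_neg hk]
  have h4 : encCfg tm (initList tm (x.map ein.invFun)) =
      (numSt tm (tm.m tm.main, tm.initialState),
        encStk tm (initList tm (x.map ein.invFun)).stk) := rfl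
  rw [h4, h3, ← encStk_set, encStk_nil]
  unfold initU codeOf
  simp only
  congr 2
  unfold encMap
  rw [List.map_map]
  apply List.map_congr_left
  intro b _
  cases b <;> rfl

theorem goodStk_init (ein : tm.Γ tm.k₀ ≃ Bool) (x : List Bool) :
    GoodStk tm (initList tm (x.map ein.invFun)).stk := by
  intro k a ha
  by_cases hk : k = tm.k₀
  · subst hk
    exact Finset.mem_union_right _ (Finset.mem_image.2 ⟨a, Finset.mem_univ _, rfl⟩)
  · exfalso
    simp only [initList] at ha
    rw [dif_neg hk] at ha
    simp at ha

/-- Every machine is simulated by a code, with about the same space. -/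
theorem exists_code (ein : tm.Γ tm.k₀ ≃ Bool) (eout : tm.Γ tm.k₁ ≃ Bool) :
    ∃ (cd : Code) (D : ℕ), ∀ (x : List Bool) (s n : ℕ) (b : Bool),
      (flip bind tm.step)^[n] (some (initList tm (x.map ein.symm))) =
        some (haltList tm [eout.symm b]) →
      (∀ (i : ℕ) (c : tm.Cfg), (flip bind tm.step)^[i] (some (initList tm (x.map ein.symm))) =
        some c → ∀ k, (c.stk k).length ≤ s) →
      Halts cd x (s + D) ∧ ∀ m, cd.1.length ≤ (runU cd x m).1 → U cd x m = some [b] := by
  refine ⟨codeOf ein eout, maxDep tm, fun x s n b hn hs => ?_⟩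
  obtain ⟨m, h1, h2⟩ := sim_space tm s n (initList tm (x.map ein.invFun))
    (haltList tm [eout.symm b]) (goodStk_init _ x) hs hn rfl
  have hout : ∀ t, maxDep tm * n ≤ t → U (codeOf ein eout) x t = some [b] := fun t ht =>
    U_codeOf ein eout x [b] n ⟨⟨n, hn⟩, le_rfl⟩ t ht
  refine ⟨⟨m, ?_, ?_⟩, fun t ht => ?_⟩
  · unfold runU
    rw [init_eq]
    change _ ≤ ((stepU (codeL tm))^[m] _).1
    rw [h1]
    change (codeL tm).length ≤ _
    rw [codeL_length]
    exact le_refl _
  · intro i hi k
    unfold runU
    rw [init_eq]
    exact h2 i hi k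
  · rw [← hout (max t (maxDep tm * n)) (le_max_right _ _)]
    unfold U
    rw [runU_halted ht (le_max_left t (maxDep tm * n))]

theorem reaches_of_iter (n : ℕ) : ∀ (a c : tm.Cfg),
    (flip bind tm.step)^[n] (some a) = some c → StateTransition.Reaches tm.step a c := by
  induction n with
  | zero =>
    intro a c h
    obtain rfl : a = c := by simpa using h
    exact Relation.ReflTransGen.refl
  | succ n ih =>
    intro a c h
    rw [Function.iterate_succ_apply'] at h
    rcases hb : (flip bind tm.step)^[n] (some a) with _ | b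
    · rw [hb] at h
      cases h
    · rw [hb] at h
      exact (ih a b hb).tail h

theorem length_le_of_space {c : tm.Cfg} {s : ℕ} (h : space c ≤ s) (k : tm.K) :
    (c.stk k).length ≤ s :=
  (Finset.single_le_sum (f := fun j => (c.stk j).length) (fun _ _ => Nat.zero_le _)
    (Finset.mem_univ k)).trans h

end machine

/-! ### The functions of the class `L` -/

/-- The input stack. -/
def inS (b s0 s1 X B : ℕ) : ℕ :=
  ∑ i ∈ range (V7H59.CT.sz X - 1), (if dgt 2 X i = 0 then s0 + 1 else s1 + 1) * powT b i B

theorem L_inS (b s0 s1 : ℕ) {X B : (ℕ → ℕ) → ℕ} (hX : L X) (hB : L B) :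
    L (fun e => inS b s0 s1 (X e) (B e)) := by
  refine L.sum (f := fun e i => (if dgt 2 (X e) i = 0 then s0 + 1 else s1 + 1) *
    powT b i (B e)) (B := fun e => (s0 + s1 + 1) * B e) (hX.sz.sub (L.const 1)) ?_
    ((L.const _).mul hB) fun e i _ => ?_
  · exact (L.ite0 (L.dgt (L.const 2) hX.tl (L.var 0)) (L.const _) (L.const _)).mul
      (L.powT (L.const b) (L.var 0) hB.tl)
  · refine Nat.mul_le_mul ?_ (min_le_right _ _)
    split_ifs <;> omega

theorem num_dgt_zero (a : Bool) (x : List Bool) : dgt 2 (num (a :: x)) 0 = a.toNat := by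
  rw [dgt_eq, num, Nat.bit_val]
  cases a <;> simp

theorem num_dgt_succ (a : Bool) (x : List Bool) (i : ℕ) :
    dgt 2 (num (a :: x)) (i + 1) = dgt 2 (num x) i := by
  rw [dgt_eq, dgt_eq, num, Nat.bit_val, pow_succ', ← Nat.div_div_eq_div_mul]
  congr 2
  cases a <;> simp <;> omega

theorem inS_eq {b s0 s1 B : ℕ} (hb : 0 < b) (x : List Bool) (hB : b ^ x.length ≤ B) :
    inS b s0 s1 (num x) B = encL b (x.map fun a => if a then s1 else s0) := by
  unfold inS
  rw [sz_eq, num_size, Nat.add_sub_cancel]
  have key : ∀ x : List Bool, ∑ i ∈ range x.length,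
      (if dgt 2 (num x) i = 0 then s0 + 1 else s1 + 1) * b ^ i =
      encL b (x.map fun a => if a then s1 else s0) := by
    intro x
    induction x with
    | nil => simp [encL]
    | cons a x ih =>
      rw [List.length_cons, sum_range_succ', List.map_cons, encL, ← ih, sum_mul]
      congr 1
      · refine sum_congr rfl fun i _ => ?_
        rw [num_dgt_succ, pow_succ, mul_assoc]
      · rw [num_dgt_zero]
        cases a <;> simp
  rw [← key x]
  refine sum_congr rfl fun i hi => ?_
  rw [powT_eq]
  exact (Nat.pow_le_pow_right hb (mem_range.1 hi).le).trans hB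

theorem encL_small {b : ℕ} (hb : 0 < b) {l : List ℕ} (h : ∀ a ∈ l, a + 1 < b) {s : ℕ}
    (hs : l.length ≤ s) : encL b l < b ^ s :=
  (encL_lt h).trans_le (Nat.pow_le_pow_right hb hs)

/-- Simulation of a code in the class `L`: the function depends on the input and on a number which
bounds the space. -/
theorem exists_L (cd : Code) (D : ℕ) : ∃ F : (ℕ → ℕ) → ℕ, L F ∧
    ∀ (x : List Bool) (s W : ℕ) (y : Bool) (e : ℕ → ℕ), x.length ≤ s → 2 ^ s ≤ W → e 0 = num x →
      e 1 = W → Halts cd x (s + D) → (∀ m, cd.1.length ≤ (runU cd x m).1 →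
        U cd x m = some [y]) → F e = y.toNat := by
  obtain ⟨I, st, K, ki, ⟨s0, s1⟩, ko, T⟩ := cd
  obtain ⟨β, hβ, hI0⟩ := exists_smI I (s0 + s1 + st + 2)
  set b := 2 ^ β with hb
  have hβb : β < b := Nat.lt_two_pow_self
  have hI : SmI b I := hI0.mono hβb.le
  have hb0 : 0 < b := by omega
  let B : (ℕ → ℕ) → ℕ := fun e => (e 1 + 1) ^ β * b ^ (D + 1)
  have hB : L B := (L.powc (L.var 1).succ β).mul (L.const _)
  have hBpos : ∀ e, 0 < B e := fun e => Nat.mul_pos (Nat.pow_pos (by omega)) (Nat.pow_pos hb0)
  let g : ℕ → (ℕ → ℕ) → ℕ := fun j e => match j with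
    | 0 => st
    | j + 1 => if j = ki ∧ j < K then inS b s0 s1 (e 0) (B e) else 0
  have hg : ∀ j < K + 1, L (g j) := by
    intro j _
    cases j with
    | zero => exact L.const st
    | succ j =>
      by_cases h : j = ki ∧ j < K
      · refine (L_inS b s0 s1 (L.var 0) hB).congr fun e => ?_
        simp only [g, if_pos h]
      · refine L.zero.congr fun e => ?_
        simp only [g, if_neg h]
  let P : (ℕ → ℕ) → ℕ := fun e =>
    (pst (K + 1) (B e) (hst b K I) e)^[B e ^ (K + 1)] (pack (K + 1) (B e) fun j => g j e)
  have hP : L P := L_vec (K + 1) hB hBpos (L.powc hB (K + 1)) (fun j _ => L_hst b K I j) hg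
  refine ⟨fun e => if T.getD ((if ko < K then P e / B e ^ (ko + 1) % B e else 0) - 1) false
    then 1 else 0, ?_, ?_⟩
  · refine L_getD T (A := fun e => (if ko < K then P e / B e ^ (ko + 1) % B e else 0) - 1)
      (f := fun t _ => if t then 1 else 0) false (L.pred ?_) fun t => L.const _
    by_cases h : ko < K
    · simp only [h, if_true]
      exact (hP.div (L.powc hB _)).mod hB
    · simp only [h, if_false]
      exact L.zero
  · intro x s W y e hxs hW e0 e1 ⟨m, hm1, hm2⟩ hU
    set cd : Code := (I, st, K, ki, (s0, s1), ko, T) with hcd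
    have hm1' : I.length ≤ (runU cd x m).1 := hm1
    have hbB : b ^ (s + D) ≤ B e := by
      change _ ≤ (e 1 + 1) ^ β * b ^ (D + 1)
      rw [pow_add]
      refine Nat.mul_le_mul ?_ (Nat.pow_le_pow_right hb0 (by omega))
      rw [hb, ← pow_mul, mul_comm, pow_mul, e1]
      exact Nat.pow_le_pow_left (by omega) _
    have hbB1 : b ≤ B e := by
      change _ ≤ (e 1 + 1) ^ β * b ^ (D + 1)
      calc b ≤ b ^ (D + 1) := Nat.le_self_pow (by omega) b
        _ ≤ _ := Nat.le_mul_of_pos_left _ (Nat.pow_pos (by omega))
    have hrl : ∀ i, (runU cd x i).2.length = K := by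
      intro i
      induction i with
      | zero => simp [runU, initU, hcd]
      | succ i ih =>
        have e : runU cd x (i + 1) = stepU cd.1 (runU cd x i) :=
          Function.iterate_succ_apply' _ _ _
        rw [e, stepU_length, ih]
    have hsml : ∀ i, Sml b (runU cd x i) := by
      intro i
      induction i with
      | zero =>
        refine ⟨show st < b by omega, fun j a ha => ?_⟩
        change a ∈ ((List.replicate K []).set ki (x.map fun b => if b then s1 else s0)).getD j []
          at ha
        rw [getD_set] at ha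
        split at ha
        · obtain ⟨c, _, rfl⟩ := List.mem_map.1 ha
          split_ifs <;> omega
        · rw [List.getD_eq_getElem?_getD, List.getElem?_replicate] at ha
          split at ha <;> simp at ha
      | succ i ih =>
        have e : runU cd x (i + 1) = stepU cd.1 (runU cd x i) :=
          Function.iterate_succ_apply' _ _ _
        rw [e]
        exact ih.step hI
    have hlt : ∀ i ≤ m, ∀ j < K + 1, vec b (runU cd x i) j < B e := by
      intro i hi j _
      cases j with
      | zero => exact (hsml i).1.trans_le hbB1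
      | succ j =>
        exact (encL_small hb0 ((hsml i).2 j) (hm2 i hi j)).trans_le hbB
    have hst' : ∀ i < m, ∀ j < K + 1, vec b (runU cd x (i + 1)) j =
        hst b K I j (mix (K + 1) (vec b (runU cd x i)) e) := by
      intro i _ j hj
      have e' : runU cd x (i + 1) = stepU I (runU cd x i) :=
        Function.iterate_succ_apply' _ _ _
      rw [e']
      exact vec_step (hrl i) (hsml i) hj e
    have hit := iter_pst (hBpos e) (h := hst b K I) (e := e) hlt hst'
    have h0 : pack (K + 1) (B e) (fun j => g j e) =
        pack (K + 1) (B e) (vec b (runU cd x 0)) := by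
      refine pack_congr fun j hj => ?_
      cases j with
      | zero => rfl
      | succ j =>
        simp only [g, vec]
        have er : (runU cd x 0).2 = (List.replicate K []).set ki
          (x.map fun b => if b then s1 else s0) := rfl
        rw [er, getD_set]
        by_cases h : j = ki ∧ j < K
        · rw [if_pos h, if_pos ⟨h.1.symm, by rw [List.length_replicate]; exact h.2⟩, e0,
            inS_eq hb0]
          refine (Nat.pow_le_pow_right hb0 ?_).trans hbB
          omega
        · have h' : ¬ (ki = j ∧ j < (List.replicate K ([] : List ℕ)).length) := by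
            rintro ⟨h1, h2⟩
            rw [List.length_replicate] at h2
            exact h ⟨h1.symm, h2⟩
          rw [if_neg h, if_neg h', List.getD_eq_getElem?_getD, List.getElem?_replicate]
          split <;> simp [encL]
    have hfixc : stepU I (runU cd x m) = runU cd x m := by
      unfold stepU
      rw [List.getElem?_eq_none hm1']
    have hfix : pst (K + 1) (B e) (hst b K I) e (pack (K + 1) (B e) (vec b (runU cd x m))) =
        pack (K + 1) (B e) (vec b (runU cd x m)) := by
      rw [pst_pack (hBpos e) _ _ (hlt m le_rfl)]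
      refine pack_congr fun j hj => ?_
      rw [← vec_step (hrl m) (hsml m) hj e, hfixc]
    have hPm : P e = pack (K + 1) (B e) (vec b (runU cd x m)) := by
      change (pst (K + 1) (B e) (hst b K I) e)^[B e ^ (K + 1)]
        (pack (K + 1) (B e) fun j => g j e) = _
      rw [h0, ← hit m le_rfl]
      refine iterate_bound (fun i hi => ?_) ?_
      · rw [hit i hi]
        exact pack_lt (hBpos e) _
      · rw [hit m le_rfl, hfix]
    have hUm := hU m hm1
    unfold U at hUm
    rw [if_neg (by simpa using hm1)] at hUm
    have hUm' : ((runU cd x m).2.getD ko []).map (fun a => T.getD a false) = [y] :=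
      Option.some.inj hUm
    obtain ⟨a, ha⟩ : ∃ a, (runU cd x m).2.getD ko [] = [a] := by
      have := congrArg List.length hUm'
      rw [List.length_map] at this
      exact List.length_eq_one_iff.1 this
    rw [ha] at hUm'
    have hy : T.getD a false = y := by simpa using hUm'
    have hko : ko < K := by
      by_contra h
      rw [List.getD_eq_default _ _ (by rw [hrl]; omega)] at ha
      cases ha
    have hcomp : P e / B e ^ (ko + 1) % B e = a + 1 := by
      rw [hPm, pack_digit (hBpos e) _ (by omega : ko + 1 < K + 1),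
        Nat.mod_eq_of_lt (hlt m le_rfl _ (by omega))]
      simp only [vec, ha, encL]
      omega
    simp only [if_pos hko, hcomp, Nat.add_sub_cancel, hy]
    cases y <;> rfl

open Classical in
/-- Languages in linear space have characteristic functions in the class `L`. -/
theorem L_of_inLinSpace {S : Set (List Bool)} (h : InLinSpace S) : ∃ F : (ℕ → ℕ) → ℕ, L F ∧
    ∀ (x : List Bool) (e : ℕ → ℕ), e 0 = num x → F e = if x ∈ S then 1 else 0 := by
  obtain ⟨f, M, C, hf, hC⟩ := h
  obtain ⟨cd, D, hcd⟩ := exists_code M.inputAlphabet M.outputAlphabet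
  obtain ⟨F, hF, h1⟩ := exists_L cd D
  refine ⟨fun e => F fun i => if i = 0 then e 0 else (2 * e 0) ^ (C + 1), ?_, fun x e he => ?_⟩
  · refine L.subst hF (g := fun i e => if i = 0 then e 0 else (2 * e 0) ^ (C + 1)) fun i => ?_
    by_cases hi : i = 0
    · simp only [hi, if_true]
      exact L.var 0
    · simp only [hi, if_false]
      exact L.powc ((L.const 2).mul (L.var 0)) (C + 1)
  · obtain ⟨n, hn⟩ := M.outputsFun x
    obtain ⟨h2, h3⟩ := hcd x ((C + 1) * (x.length + 1)) n (f x) hn fun i c hc =>
      length_le_of_space ((hC x c (reaches_of_iter i _ c hc)).trans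
        (Nat.mul_le_mul_right _ (Nat.le_succ C)))
    have h4 : 2 ^ ((C + 1) * (x.length + 1)) ≤ (2 * num x) ^ (C + 1) := by
      rw [mul_comm, pow_mul]
      refine Nat.pow_le_pow_left ?_ _
      rw [pow_succ, mul_comm]
      refine Nat.mul_le_mul_left _ ?_
      have h5 : x.length < (num x).size := by rw [num_size]; omega
      exact Nat.lt_size.1 h5
    have h6 := h1 x ((C + 1) * (x.length + 1)) ((2 * num x) ^ (C + 1)) (f x)
      (fun i => if i = 0 then e 0 else (2 * e 0) ^ (C + 1)) (by nlinarith) h4
      (by simp [he]) (by simp [he]) h2 h3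
    refine h6.trans ?_
    by_cases hx : x ∈ S
    · rw [if_pos hx, (hf x).1 hx]; rfl
    · rw [if_neg hx]
      rw [hf x, Bool.not_eq_true] at hx
      rw [hx]; rfl

/-- The padded input. -/
def padW (p : Polynomial ℕ) (x : List Bool) : List Bool :=
  x ++ true :: List.replicate (p.eval x.length) false

theorem num_replicate (n : ℕ) : num (List.replicate n false) = 2 ^ n := by
  induction n with
  | zero => rfl
  | succ n ih => rw [List.replicate_succ, num, ih, Nat.bit_val, pow_succ]; simp [mul_comm]

theorem num_append (x y : List Bool) : num (x ++ y) + 2 ^ x.length = num x + 2 ^ x.length * num y := by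
  induction x with
  | nil => simp [num]; ring
  | cons a x ih =>
    rw [List.cons_append, num, num, Nat.bit_val, Nat.bit_val, List.length_cons, pow_succ]
    nlinarith

theorem num_padW (p : Polynomial ℕ) (x : List Bool) :
    num (padW p x) - 2 ^ ((num (padW p x)).size - 1) = num x ∧
      2 ^ (p.eval x.length) ≤ num (padW p x) ∧ x.length ≤ (padW p x).length := by
  have h1 := num_append x (true :: List.replicate (p.eval x.length) false)
  rw [num, num_replicate, Nat.bit_val] at h1
  have hl : (padW p x).length = x.length + p.eval x.length + 1 := by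
    unfold padW; simp; omega
  have h2 : (num (padW p x)).size - 1 = x.length + p.eval x.length + 1 := by
    rw [num_size, hl]; omega
  have h3 : num (padW p x) = num x + 2 ^ (x.length + p.eval x.length + 1) := by
    have h4 : 2 ^ (x.length + p.eval x.length + 1) = 2 ^ x.length * (2 * 2 ^ p.eval x.length) := by
      rw [pow_succ, pow_add]; ring
    rw [h4]
    simp only [Bool.toNat_true] at h1
    change num (padW p x) + _ = _ at h1
    nlinarith
  refine ⟨?_, ?_, by rw [hl]; omega⟩
  · rw [h2, h3]; omega
  · rw [h3]
    have : 2 ^ p.eval x.length ≤ 2 ^ (x.length + p.eval x.length + 1) :=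
      Nat.pow_le_pow_right (by norm_num) (by omega)
    omega

/-- Padding: languages in polynomial space are reduced to languages in linear space. -/
theorem exists_pad {S : Set (List Bool)} (h : InPSPACE S) :
    ∃ (S' : Set (List Bool)) (q : Polynomial ℕ), InLinSpace S' ∧ ∀ x, x ∈ S ↔ padW q x ∈ S' := by
  obtain ⟨tm, ein, eout, p, hp⟩ := h
  obtain ⟨cd, D, hcd⟩ := exists_code ein eout
  obtain ⟨F, hF, h1⟩ := exists_L cd D
  let G : (ℕ → ℕ) → ℕ := fun e => F fun i =>
    if i = 0 then e 0 - powT 2 (V7H59.CT.sz (e 0) - 1) (e 0 + 1) else e 0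
  have hG : L G := by
    refine L.subst hF (g := fun i e => if i = 0 then
      e 0 - powT 2 (V7H59.CT.sz (e 0) - 1) (e 0 + 1) else e 0) fun i => ?_
    by_cases hi : i = 0
    · simp only [hi, if_true]
      exact (L.var 0).sub (L.powT (L.const 2) ((L.var 0).sz.sub (L.const 1)) (L.var 0).succ)
    · simp only [hi, if_false]
      exact L.var 0
  refine ⟨{y | G (update (fun _ => 0) 0 (num y)) ≠ 0}, p + Polynomial.X,
    inLinSpace_of_L hG _ fun x => Iff.rfl, fun x => ?_⟩
  set q := p + Polynomial.X with hq
  have hqe : q.eval x.length = p.eval x.length + x.length := by simp [hq]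
  obtain ⟨h2, h3, h4⟩ := num_padW q x
  obtain ⟨⟨n, b, hb, hn⟩, hsp⟩ := hp x
  obtain ⟨h5, h6⟩ := hcd x (q.eval x.length) n b hn fun i c hc k =>
    (hsp i c hc k).trans (by rw [hqe]; omega)
  have e1 : powT 2 (V7H59.CT.sz (num (padW q x)) - 1) (num (padW q x) + 1) =
      2 ^ ((num (padW q x)).size - 1) := by
    rw [sz_eq, powT_eq]
    have h7 : 0 < num (padW q x) := num_pos _
    have h8 : (num (padW q x)).size - 1 < (num (padW q x)).size := by
      have : 0 < (num (padW q x)).size := Nat.size_pos.2 h7
      omega
    have := Nat.lt_size.1 h8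
    omega
  have h7 := h1 x (q.eval x.length) (num (padW q x)) b
    (fun i => if i = 0 then num (padW q x) -
      powT 2 (V7H59.CT.sz (num (padW q x)) - 1) (num (padW q x) + 1) else num (padW q x))
    (by rw [hqe]; omega) h3 (by simp only [if_true, e1, h2]) (by simp) h5 h6
  have h8 : G (update (fun _ => 0) 0 (num (padW q x))) = b.toNat := by
    rw [← h7]
    simp only [G, Function.update_self]
  rw [← hb, Set.mem_ofPred_eq, h8]
  cases b <;> simp

end Pool.Agent.V7H56.LS
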