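import Pool.Agent.H583R2.Sim
import Pool.Agent.V7H59.CT.Code

/-!
# Simulation of machines by functions of the class `L`: encodings
-/

set_option autoImplicit false

namespace Pool.Agent.V7H56.LS

open Pool.Agent.H583R2 Pool.Agent.V7H59.CT Finset

/-! ### Vectors packed in one number -/

/-- The number with digits `W 0, …, W (n - 1)` in base `B`. -/
def pack (n B : ℕ) (W : ℕ → ℕ) : ℕ := ∑ j ∈ range n, W j % B * B ^ j

/-- The environment which starts with `W 0, …, W (n - 1)`, followed by `e`. -/
def mix (n : ℕ) (W e : ℕ → ℕ) : ℕ → ℕ := fun i => if i < n then W i else e (i - n)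

theorem pack_lt {n B : ℕ} (hB : 0 < B) (W : ℕ → ℕ) : pack n B W < B ^ n := sum_digits_lt hB n W

theorem pack_digit {n B : ℕ} (hB : 0 < B) (W : ℕ → ℕ) {j : ℕ} (hj : j < n) :
    pack n B W / B ^ j % B = W j % B := digit_sum hB n W hj

theorem pack_congr {n B : ℕ} {W W' : ℕ → ℕ} (h : ∀ j < n, W j = W' j) :
    pack n B W = pack n B W' :=
  sum_congr rfl fun j hj => by rw [h j (mem_range.1 hj)]

theorem mix_congr {n : ℕ} {W W' : ℕ → ℕ} (h : ∀ j < n, W j = W' j) (e : ℕ → ℕ) :
    mix n W e = mix n W' e := by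
  funext i
  unfold mix
  split_ifs with hi
  · exact h i hi
  · rfl

/-- One step, on packed vectors. -/
def pst (n B : ℕ) (h : ℕ → (ℕ → ℕ) → ℕ) (e : ℕ → ℕ) (P : ℕ) : ℕ :=
  pack n B fun j => h j (mix n (fun i => P / B ^ i % B) e)

theorem pst_lt {n B : ℕ} (hB : 0 < B) (h : ℕ → (ℕ → ℕ) → ℕ) (e : ℕ → ℕ) (P : ℕ) :
    pst n B h e P < B ^ n := pack_lt hB _

theorem pst_pack {n B : ℕ} (hB : 0 < B) (h : ℕ → (ℕ → ℕ) → ℕ) (e : ℕ → ℕ) {W : ℕ → ℕ}
    (hW : ∀ j < n, W j < B) : pst n B h e (pack n B W) = pack n B fun j => h j (mix n W e) := by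
  unfold pst
  rw [mix_congr (W' := W) fun j hj => by rw [pack_digit hB W hj, Nat.mod_eq_of_lt (hW j hj)]]

theorem L_vec (n : ℕ) {B N : (ℕ → ℕ) → ℕ} {h g : ℕ → (ℕ → ℕ) → ℕ} (hB : L B)
    (hpos : ∀ e, 0 < B e) (hN : L N) (hh : ∀ j < n, L (h j)) (hg : ∀ j < n, L (g j)) :
    L (fun e => (pst n (B e) h e)^[N e] (pack n (B e) fun j => g j e)) := by
  have hBn : L (fun e => B e ^ n) := L.powc hB n
  refine L.recB (A := fun e i => (pst n (B e) h e)^[i] (pack n (B e) fun j => g j e))
    (h := fun e _ P => pst n (B e) h e P) (B := fun e => B e ^ n) ?_ hN ?_ (fun x i => ?_) hBn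
    (fun x i _ => ?_)
  · exact L.sumc n (f := fun e j => g j e % B e * B e ^ j) fun j hj =>
      ((hg j hj).mod hB).mul (L.powc hB j)
  · refine L.sumc n (f := fun z j => h j (mix n
      (fun i => z 0 / B (fun j => z (j + 2)) ^ i % B (fun j => z (j + 2)))
      (fun j => z (j + 2))) % B (fun j => z (j + 2)) * B (fun j => z (j + 2)) ^ j)
      fun j hj => (L.mod ?_ hB.tl2).mul (L.powc hB.tl2 j)
    refine L.subst (hh j hj) (g := fun i z => if i < n then
      z 0 / B (fun j => z (j + 2)) ^ i % B (fun j => z (j + 2)) else z (i - n + 2)) fun i => ?_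
    by_cases hi : i < n
    · simp only [hi, if_true]
      exact ((L.var 0).div (L.powc hB.tl2 i)).mod hB.tl2
    · simp only [hi, if_false]
      exact L.var (i - n + 2)
  · exact Function.iterate_succ_apply' _ _ _
  · cases i with
    | zero => exact (pack_lt (hpos x) _).le
    | succ i => rw [Function.iterate_succ_apply']; exact (pst_lt (hpos x) h x _).le

theorem iter_pst {n B : ℕ} (hB : 0 < B) {h : ℕ → (ℕ → ℕ) → ℕ} {e : ℕ → ℕ} {W : ℕ → ℕ → ℕ}
    {m : ℕ} (hlt : ∀ i ≤ m, ∀ j < n, W i j < B)
    (hst : ∀ i < m, ∀ j < n, W (i + 1) j = h j (mix n (W i) e)) :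
    ∀ i ≤ m, (pst n B h e)^[i] (pack n B (W 0)) = pack n B (W i) := by
  intro i
  induction i with
  | zero => intro _; rfl
  | succ i ih =>
    intro hi
    rw [Function.iterate_succ_apply', ih (by omega), pst_pack hB h e (hlt i (by omega))]
    exact pack_congr fun j hj => (hst i (by omega) j hj).symm

/-- A bounded orbit which reaches a fixed point does so within the number of available values. -/
theorem iterate_bound_gen {α : Type} {G : α → α} (φ : α → ℕ) (hφ : Function.Injective φ) {P : α}
    {M m : ℕ} (hb : ∀ i ≤ m, φ (G^[i] P) < M) (hfix : G (G^[m] P) = G^[m] P) :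
    G^[M] P = G^[m] P := by
  classical
  have hex : ∃ i, G (G^[i] P) = G^[i] P := ⟨m, hfix⟩
  set m0 := Nat.find hex with hm0
  have h0 : G (G^[m0] P) = G^[m0] P := Nat.find_spec hex
  have hle : m0 ≤ m := Nat.find_min' hex hfix
  have hst : ∀ t, G^[m0 + t] P = G^[m0] P := by
    intro t
    induction t with
    | zero => rfl
    | succ t ih => rw [← add_assoc, Function.iterate_succ_apply', ih, h0]
  have hm : G^[m] P = G^[m0] P := by
    have := hst (m - m0)
    rwa [Nat.add_sub_cancel' hle] at this
  by_cases hM : m0 ≤ M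
  · have := hst (M - m0)
    rw [Nat.add_sub_cancel' hM] at this
    rw [this, hm]
  · exfalso
    push Not at hM
    obtain ⟨i, hi, j, hj, hij, he⟩ := Finset.exists_ne_map_eq_of_card_lt_of_maps_to
      (s := range (M + 1)) (t := range M) (by simp) (f := fun i => φ (G^[i] P))
      (fun i hi => by
        simp only [coe_range, Set.mem_Iio] at hi ⊢
        exact hb i (by omega))
    simp only [mem_range] at hi hj
    have key : ∀ i j, i < j → j ≤ M → G^[i] P = G^[j] P → False := by
      intro i j hlt hj he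
      have hs : ∀ t, G^[i + t] P = G^[j + t] P := by
        intro t
        rw [add_comm i, add_comm j, Function.iterate_add_apply, Function.iterate_add_apply, he]
      have h1 := hs (m0 - j)
      rw [Nat.add_sub_cancel' (by omega : j ≤ m0)] at h1
      have h2 : G (G^[i + (m0 - j)] P) = G^[i + (m0 - j)] P := by rw [h1]; exact h0
      exact Nat.find_min hex (m := i + (m0 - j)) (by omega) h2
    rcases lt_or_gt_of_ne hij with h | h
    · exact key i j h (by omega) (hφ he)
    · exact key j i h (by omega) (hφ he.symm)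

theorem iterate_bound {G : ℕ → ℕ} {P M m : ℕ} (hb : ∀ i ≤ m, G^[i] P < M)
    (hfix : G (G^[m] P) = G^[m] P) : G^[M] P = G^[m] P :=
  iterate_bound_gen (fun n => n) (fun _ _ h => h) hb hfix

/-! ### Finite case distinctions -/

theorem L_opt {α : Type} (I : List α) {A d : (ℕ → ℕ) → ℕ} {f : α → (ℕ → ℕ) → ℕ} (hA : L A)
    (hd : L d) (hf : ∀ a ∈ I, L (f a)) :
    L (fun e => (I[A e]?).elim (d e) fun a => f a e) := by
  induction I generalizing A with
  | nil => exact hd.congr fun e => by simp
  | cons a I ih =>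
    refine (L.ite0 hA (hf a List.mem_cons_self)
      (ih hA.pred fun a ha => hf a (List.mem_cons_of_mem _ ha))).congr fun e => ?_
    rcases h : A e with _ | n
    · simp
    · simp

theorem L_getD {α : Type} (I : List α) {A : (ℕ → ℕ) → ℕ} {f : α → (ℕ → ℕ) → ℕ} (d : α) (hA : L A)
    (hf : ∀ a, L (f a)) : L (fun e => f (I.getD (A e) d) e) := by
  refine (L_opt I hA (hf d) fun a _ => hf a).congr fun e => ?_
  rw [List.getD_eq_getElem?_getD]
  cases I[A e]? <;> rfl

/-! ### Stacks as numbers -/

/-- A stack as a number in base `b`. -/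
def encL (b : ℕ) : List ℕ → ℕ
  | [] => 0
  | a :: l => encL b l * b + (a + 1)

theorem encL_lt {b : ℕ} {l : List ℕ} (h : ∀ a ∈ l, a + 1 < b) : encL b l < b ^ l.length := by
  induction l with
  | nil => simp [encL]
  | cons a l ih =>
    have h1 := ih fun a ha => h a (List.mem_cons_of_mem _ ha)
    have h2 := h a List.mem_cons_self
    calc encL b l * b + (a + 1) < encL b l * b + b := by omega
      _ = (encL b l + 1) * b := by ring
      _ ≤ b ^ l.length * b := Nat.mul_le_mul_right _ h1
      _ = b ^ (a :: l).length := by rw [List.length_cons, pow_succ]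

theorem encL_mod {b : ℕ} {l : List ℕ} (h : ∀ a ∈ l, a + 1 < b) : encL b l % b = symIx l.head? := by
  cases l with
  | nil => simp [encL, symIx]
  | cons a l =>
    have h2 := h a List.mem_cons_self
    simp only [encL, List.head?_cons, symIx]
    rw [mul_comm, Nat.mul_add_mod, Nat.mod_eq_of_lt h2]

theorem encL_div {b : ℕ} {l : List ℕ} (h : ∀ a ∈ l, a + 1 < b) : encL b l / b = encL b l.tail := by
  cases l with
  | nil => simp [encL]
  | cons a l =>
    have h2 := h a List.mem_cons_self
    simp only [encL, List.tail_cons]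
    rw [mul_comm, Nat.mul_add_div (by omega), Nat.div_eq_of_lt h2, add_zero]

/-- A configuration as a vector. -/
def vec (b : ℕ) (c : UCfg) : ℕ → ℕ
  | 0 => c.1
  | j + 1 => encL b (c.2.getD j [])

/-- All symbols are small. -/
def Sml (b : ℕ) (c : UCfg) : Prop := c.1 < b ∧ ∀ j, ∀ a ∈ c.2.getD j [], a + 1 < b

/-- The symbol read by an instruction. -/
def syv (b K : ℕ) (ins : Ins) (z : ℕ → ℕ) : ℕ := if ins.1 < K then z (ins.1 + 1) % b else 0

/-- The new components. -/
def nwv (b : ℕ) (ins : Ins) (en : Ent) : ℕ → (ℕ → ℕ) → ℕ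
  | 0, _ => en.2.2
  | j + 1, z => if j = en.1 then (if j = ins.1 then z (j + 1) / b else z (j + 1)) * b + (en.2.1 + 1)
      else (if j = ins.1 then z (j + 1) / b else z (j + 1))

/-- The step function on vectors. -/
def hst (b K : ℕ) (I : List Ins) (j : ℕ) (z : ℕ → ℕ) : ℕ :=
  (I[z 0]?).elim (z j) fun ins => nwv b ins (ins.2.getD (syv b K ins z) (0, 0, 0)) j z

theorem L_hst (b K : ℕ) (I : List Ins) (j : ℕ) : L (hst b K I j) := by
  refine L_opt I (L.var 0) (L.var j)
    (f := fun ins z => nwv b ins (ins.2.getD (syv b K ins z) (0, 0, 0)) j z) fun ins _ => ?_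
  refine L_getD ins.2 (A := syv b K ins) (f := fun en z => nwv b ins en j z) (0, 0, 0) ?_ ?_
  · unfold syv
    by_cases h : ins.1 < K
    · simp only [h, if_true]
      exact (L.var _).mod (L.const b)
    · simp only [h, if_false]
      exact L.zero
  · intro en
    cases j with
    | zero => exact L.const _
    | succ j =>
      have hv : L (fun z : ℕ → ℕ => if j = ins.1 then z (j + 1) / b else z (j + 1)) := by
        by_cases h : j = ins.1
        · simp only [h, if_true]
          exact (L.var _).div (L.const b)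
        · simp only [h, if_false]
          exact L.var _
      by_cases h : j = en.1
      · refine ((hv.mul (L.const b)).add (L.const (en.2.1 + 1))).congr fun z => ?_
        simp [nwv, h]
      · refine hv.congr fun z => ?_
        simp [nwv, h]

theorem vec_step {b K : ℕ} {I : List Ins} {c : UCfg} (hK : c.2.length = K) (hs : Sml b c)
    {j : ℕ} (hj : j < K + 1) (e : ℕ → ℕ) :
    vec b (stepU I c) j = hst b K I j (mix (K + 1) (vec b c) e) := by
  have m0 : mix (K + 1) (vec b c) e 0 = c.1 := by
    unfold mix; rw [if_pos (by omega)]; rfl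
  have mj : ∀ i < K, mix (K + 1) (vec b c) e (i + 1) = encL b (c.2.getD i []) := by
    intro i hi
    unfold mix; rw [if_pos (by omega)]; rfl
  unfold hst stepU
  rw [m0]
  rcases h : I[c.1]? with _ | ins
  · simp only [Option.elim]
    unfold mix
    rw [if_pos hj]
  · simp only [Option.elim]
    have hsy : syv b K ins (mix (K + 1) (vec b c) e) = symIx (c.2.getD ins.1 []).head? := by
      unfold syv
      split_ifs with h1
      · rw [mj _ h1, encL_mod (hs.2 _)]
      · rw [List.getD_eq_default _ _ (by omega)]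
        rfl
    rw [hsy]
    unfold stepI
    generalize ins.2.getD (symIx (c.2.getD ins.1 []).head?) (0, 0, 0) = en
    cases j with
    | zero => rfl
    | succ j =>
      have hj' : j < K := by omega
      have h2 : encL b ((c.2.set ins.1 (c.2.getD ins.1 []).tail).getD j []) =
          if j = ins.1 then mix (K + 1) (vec b c) e (j + 1) / b else
            mix (K + 1) (vec b c) e (j + 1) := by
        rw [getD_set, mj _ hj']
        by_cases h3 : j = ins.1
        · rw [if_pos ⟨h3.symm, by omega⟩, if_pos h3, encL_div (hs.2 _), h3]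
        · rw [if_neg (fun h4 => h3 h4.1.symm), if_neg h3]
      simp only [vec, nwv]
      rw [getD_set]
      by_cases h3 : j = en.1
      · rw [if_pos ⟨h3.symm, by rw [List.length_set]; omega⟩, if_pos h3]
        simp only [encL]
        rw [← h3, h2]
      · rw [if_neg (fun h4 => h3 h4.1.symm), if_neg h3, h2]

theorem stepU_length (I : List Ins) (c : UCfg) : (stepU I c).2.length = c.2.length := by
  unfold stepU
  rcases I[c.1]? with _ | ins
  · rfl
  · simp [stepI]

/-- The symbols of a code are small. -/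
def SmI (b : ℕ) (I : List Ins) : Prop :=
  1 < b ∧ ∀ ins ∈ I, ∀ en ∈ ins.2, en.2.1 + 1 < b ∧ en.2.2 < b

theorem Sml.step {b : ℕ} {I : List Ins} (hI : SmI b I) {c : UCfg} (hs : Sml b c) :
    Sml b (stepU I c) := by
  unfold stepU
  rcases h : I[c.1]? with _ | ins
  · exact hs
  · have hen : ∀ n, (ins.2.getD n (0, 0, 0)).2.1 + 1 < b ∧ (ins.2.getD n (0, 0, 0)).2.2 < b := by
      intro n
      rw [List.getD_eq_getElem?_getD]
      rcases h1 : ins.2[n]? with _ | en
      · exact ⟨hI.1, Nat.lt_of_succ_lt hI.1⟩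
      · exact hI.2 ins (List.mem_of_getElem? h) en (List.mem_of_getElem? h1)
    simp only [stepI]
    have h2 := hen (symIx (c.2.getD ins.1 []).head?)
    generalize ins.2.getD (symIx (c.2.getD ins.1 []).head?) (0, 0, 0) = en at h2 ⊢
    have h1 : ∀ j, ∀ a ∈ (c.2.set ins.1 (c.2.getD ins.1 []).tail).getD j [], a + 1 < b := by
      intro j a ha
      rw [getD_set] at ha
      split at ha
      · exact hs.2 _ a (List.mem_of_mem_tail ha)
      · exact hs.2 _ a ha
    refine ⟨h2.2, fun j a ha => ?_⟩
    rw [getD_set] at ha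
    split at ha
    · rcases List.mem_cons.1 ha with rfl | ha
      · exact h2.1
      · exact h1 _ a ha
    · exact h1 _ a ha

theorem exists_smI (I : List Ins) (m : ℕ) : ∃ b, m < b ∧ SmI b I := by
  refine ⟨(I.map fun ins => (ins.2.map fun en => en.2.1 + en.2.2 + 1).sum).sum + m + 2,
    by omega, by omega, fun ins hi en he => ?_⟩
  have h1 : en.2.1 + en.2.2 + 1 ≤ (ins.2.map fun en => en.2.1 + en.2.2 + 1).sum :=
    List.single_le_sum (fun _ _ => Nat.zero_le _) _
      (List.mem_map_of_mem (f := fun en : Ent => en.2.1 + en.2.2 + 1) he)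
  have h2 : (ins.2.map fun en => en.2.1 + en.2.2 + 1).sum ≤
      (I.map fun ins => (ins.2.map fun en => en.2.1 + en.2.2 + 1).sum).sum :=
    List.single_le_sum (fun _ _ => Nat.zero_le _) _ (List.mem_map_of_mem (f := fun ins : Ins =>
      (ins.2.map fun en => en.2.1 + en.2.2 + 1).sum) hi)
  omega

theorem SmI.mono {b b' : ℕ} {I : List Ins} (h : SmI b I) (hb : b ≤ b') : SmI b' I :=
  ⟨h.1.trans_le hb, fun ins hi en he =>
    ⟨(h.2 ins hi en he).1.trans_le hb, (h.2 ins hi en he).2.trans_le hb⟩⟩

end Pool.Agent.V7H56.LS
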